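import Mathlib.Data.Int.Star
import Mathlib.Algebra.Order.Ring.Star
import Mathlib.Algebra.Order.Star.Real
import Mathlib.Analysis.Complex.ExponentialBounds
import Mathlib.NumberTheory.LegendreSymbol.ZModChar
import Mathlib.Analysis.Real.Pi.Bounds
import Mathlib.Analysis.SpecialFunctions.Stirling
import Mathlib.NumberTheory.Chebyshev
import Mathlib.Tactic.Algebra.Basic

set_option autoImplicit false

open Finset ArithmeticFunction

namespace Pool.Agent.MP_e47a12_co

/-- The nontrivial character modulo four, with integer values. -/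
def chi (n : ℕ) : ℤ := ZMod.χ₄ (n : ZMod 4)

lemma chi_mul (a b : ℕ) : chi (a * b) = chi a * chi b := by
  rw [chi, Nat.cast_mul, map_mul]; rfl

lemma chi_eq (n : ℕ) : chi n = if n % 2 = 0 then 0 else if n % 4 = 1 then 1 else -1 :=
  ZMod.χ₄_nat_eq_if_mod_four n

/-- Partial sums of the character. -/
def SS (q : ℕ) : ℤ := ((q + 3) / 4 : ℕ) - ((q + 1) / 4 : ℕ)

lemma sum_chi (q : ℕ) : ∑ k ∈ Ioc 0 q, chi k = SS q := by
  induction q with
  | zero => simp [SS]
  | succ q ih =>
    rw [sum_Ioc_succ_top (Nat.zero_le q), ih, chi_eq]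
    unfold SS
    split_ifs <;> omega

lemma sum_mul_log (f : ℕ → ℝ) (hf : ∀ a b, f (a * b) = f a * f b) (N : ℕ) :
    ∑ n ∈ Ioc 0 N, f n * Real.log n = ∑ m ∈ Ioc 0 N, f m * Λ m * ∑ k ∈ Ioc 0 (N / m), f k := by
  let F : ArithmeticFunction ℝ := ⟨fun n => if n = 0 then 0 else f n * Λ n, by simp⟩
  let G : ArithmeticFunction ℝ := ⟨fun n => if n = 0 then 0 else f n, by simp⟩
  have h := sum_Ioc_mul_eq_sum_sum F G N
  calc ∑ n ∈ Ioc 0 N, f n * Real.log n = ∑ n ∈ Ioc 0 N, (F * G) n := by
        refine sum_congr rfl fun n _ => ?_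
        rw [mul_apply, ← vonMangoldt_sum, mul_sum,
          ← Nat.sum_divisorsAntidiagonal (fun a _ => f n * Λ a)]
        refine sum_congr rfl fun x hx => ?_
        have h1 := Nat.left_ne_zero_of_mem_divisorsAntidiagonal hx
        have h2 := Nat.right_ne_zero_of_mem_divisorsAntidiagonal hx
        have h3 := (Nat.mem_divisorsAntidiagonal.1 hx).1
        simp only [F, G, coe_mk, if_neg h1, if_neg h2]
        rw [← h3, hf]; ring
    _ = _ := h
    _ = _ := by
        refine sum_congr rfl fun m hm => ?_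
        have h1 : m ≠ 0 := (mem_Ioc.1 hm).1.ne'
        simp only [F, G, coe_mk, if_neg h1]
        congr 1
        refine sum_congr rfl fun k hk => ?_
        rw [if_neg (mem_Ioc.1 hk).1.ne']

lemma extend_sum (g : ℕ → ℝ) (h : ℕ → ℝ) (h0 : h 0 = 0) (W j : ℕ) :
    ∑ m ∈ Ioc 0 (W / j), g m * h (W / j / m) = ∑ m ∈ Ioc 0 W, g m * h (W / m / j) := by
  have e : ∀ m, W / m / j = W / j / m := fun m => by
    rw [Nat.div_div_eq_div_mul, Nat.div_div_eq_div_mul, mul_comm]
  simp_rw [e]
  apply sum_subset (Ioc_subset_Ioc_right (Nat.div_le_self _ _))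
  intro m hm hm'
  simp only [mem_Ioc] at hm hm'
  rw [Nat.div_eq_of_lt (by omega), h0, mul_zero]

lemma log_factorial_eq (W j : ℕ) :
    Real.log (W / j).factorial = ∑ m ∈ Ioc 0 W, Λ m * ((W / m / j : ℕ) : ℝ) := by
  have h := sum_mul_log (fun _ => 1) (by simp) (W / j)
  simp only [one_mul, sum_const, Nat.card_Ioc, tsub_zero, nsmul_eq_mul, mul_one] at h
  rw [← extend_sum (fun m => Λ m) (fun q => (q : ℝ)) (by simp), ← h]
  generalize W / j = N
  induction N with
  | zero => simp
  | succ N ih =>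
    rw [sum_Ioc_succ_top (Nat.zero_le N), ← ih, Nat.factorial_succ, Nat.cast_mul,
      Real.log_mul (by positivity) (by positivity), add_comm]

/-- The twisted sum of logarithms. -/
noncomputable def AA (N : ℕ) : ℝ := ∑ n ∈ Ioc 0 N, (chi n : ℝ) * Real.log n

lemma AA_eq (W j : ℕ) :
    AA (W / j) = ∑ m ∈ Ioc 0 W, (chi m : ℝ) * Λ m * (SS (W / m / j) : ℝ) := by
  have h := sum_mul_log (fun n => (chi n : ℝ)) (fun a b => by simp [chi_mul]) (W / j)
  rw [← extend_sum (fun m => (chi m : ℝ) * Λ m) (fun q => (SS q : ℝ)) (by simp [SS]), AA, h]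
  refine sum_congr rfl fun m _ => ?_
  rw [← sum_chi]; push_cast; rfl

lemma log_le_log_nat {a b : ℕ} (h : a ≤ b) : Real.log a ≤ Real.log b := by
  rcases Nat.eq_zero_or_pos a with rfl | ha
  · simpa using Real.log_natCast_nonneg b
  · exact Real.log_le_log (by exact_mod_cast ha) (by exact_mod_cast h)

lemma AA_bound (N : ℕ) : ((N % 4 = 1 ∨ N % 4 = 2) → 0 ≤ AA N ∧ AA N ≤ Real.log N) ∧
    ((N % 4 = 0 ∨ N % 4 = 3) → -Real.log N ≤ AA N ∧ AA N ≤ 0) := by
  induction N with
  | zero => simp [AA]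
  | succ N ih =>
    have e : AA (N + 1) = AA N + (chi (N + 1) : ℝ) * Real.log (N + 1 : ℕ) :=
      sum_Ioc_succ_top (Nat.zero_le N) _
    have hl := log_le_log_nat (Nat.le_succ N)
    rw [e, chi_eq]
    have : N % 4 = 0 ∨ N % 4 = 1 ∨ N % 4 = 2 ∨ N % 4 = 3 := by omega
    rcases this with h | h | h | h
    · have := ih.2 (Or.inl h)
      rw [if_neg (by omega), if_pos (by omega)]
      refine ⟨fun _ => ?_, fun _ => by omega⟩
      push_cast at hl ⊢; constructor <;> linarith
    · have := ih.1 (Or.inl h)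
      rw [if_pos (by omega)]
      refine ⟨fun _ => ?_, fun _ => by omega⟩
      push_cast at hl ⊢; constructor <;> linarith
    · have := ih.1 (Or.inr h)
      rw [if_neg (by omega), if_neg (by omega)]
      refine ⟨fun _ => by omega, fun _ => ?_⟩
      push_cast at hl ⊢; constructor <;> linarith
    · have := ih.2 (Or.inr h)
      rw [if_pos (by omega)]
      refine ⟨fun _ => by omega, fun _ => ?_⟩
      push_cast at hl ⊢; constructor <;> linarith

lemma abs_AA_le (W j : ℕ) : |AA (W / j)| ≤ Real.log W := by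
  have h := AA_bound (W / j)
  have h1 := log_le_log_nat (Nat.div_le_self W j)
  have h2 := Real.log_natCast_nonneg (W / j)
  rw [abs_le]
  by_cases hc : (W / j) % 4 = 1 ∨ (W / j) % 4 = 2
  · have := h.1 hc; constructor <;> linarith
  · have := h.2 (by omega); constructor <;> linarith

lemma log_factorial_le (n : ℕ) (hn : 1 ≤ n) :
    Real.log n.factorial ≤ n * Real.log n - n + 1 + Real.log n := by
  induction n, hn using Nat.le_induction with
  | base => simp
  | succ n hn ih =>
    have h0 : (0 : ℝ) < n := by exact_mod_cast hn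
    rw [Nat.factorial_succ, Nat.cast_mul, Real.log_mul (by positivity) (by positivity)]
    have h1 := Real.log_le_sub_one_of_pos (show (0 : ℝ) < n / (n + 1) by positivity)
    rw [Real.log_div h0.ne' (by positivity)] at h1
    have h2 := mul_le_mul_of_nonneg_left h1 (show (0 : ℝ) ≤ n + 1 by positivity)
    have h3 : ((n : ℝ) + 1) * (n / (n + 1) - 1) = -1 := by field_simp; ring
    push_cast
    nlinarith

lemma le_log_factorial (n : ℕ) (hn : 1 ≤ n) : n * Real.log n - n ≤ Real.log n.factorial := by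
  have h := Stirling.le_log_factorial_stirling (n := n) (by omega)
  have h1 := Real.log_natCast_nonneg n
  have h2 : 0 ≤ Real.log (2 * Real.pi) := Real.log_nonneg (by linarith [Real.pi_gt_three])
  linarith

/-- The untwisted weight. -/
def FF (k : ℕ) : ℤ := 2 * (k / 2 : ℕ) - 2 * (k / 3 : ℕ) - 2 * (k / 4 : ℕ) - 2 * (k / 10 : ℕ)
  + 2 * (k / 12 : ℕ) + (k / 15 : ℕ) + 2 * (k / 20 : ℕ) + 3 * (k / 30 : ℕ) - 4 * (k / 60 : ℕ)

/-- The twisted weight. -/
def GG (k : ℕ) : ℤ := 2 * SS (k / 2) - 2 * SS (k / 3) + 2 * SS (k / 6) - 2 * SS (k / 10)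
  + SS (k / 15) - 2 * SS (k / 30)

/-- The tail weight. -/
def UU (k : ℕ) : ℤ := (if 26 ≤ k then 2 else 0) + (if 34 ≤ k then 2 else 0)

lemma weights (k : ℕ) : FF k + GG k ≤ (if k = 2 then 4 else 0) + UU k ∧ FF k - GG k ≤ UU k := by
  induction k using Nat.strong_induction_on with
  | _ k ih =>
    by_cases hk : k < 274
    · clear ih
      revert k
      decide +kernel
    · obtain ⟨k, rfl⟩ : ∃ k', k = k' + 240 := ⟨k - 240, by omega⟩
      have h := ih k (by omega)
      have e1 : FF (k + 240) = FF k := by unfold FF; omega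
      have s : ∀ q c : ℕ, SS (q + 4 * c) = SS q := by intro q c; unfold SS; omega
      have e2 : GG (k + 240) = GG k := by
        unfold GG
        rw [show (k + 240) / 2 = k / 2 + 4 * 30 by omega,
          show (k + 240) / 3 = k / 3 + 4 * 20 by omega,
          show (k + 240) / 6 = k / 6 + 4 * 10 by omega,
          show (k + 240) / 10 = k / 10 + 4 * 6 by omega,
          show (k + 240) / 15 = k / 15 + 4 * 4 by omega,
          show (k + 240) / 30 = k / 30 + 4 * 2 by omega]
        simp only [s]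
      have e3 : UU (k + 240) = UU k := by
        unfold UU
        rw [if_pos (by omega), if_pos (by omega), if_pos (by omega), if_pos (by omega)]
      rw [e1, e2, e3, if_neg (by omega)]
      rwa [if_neg (by omega)] at h

lemma sum_le_psi (W j : ℕ) (hj : 0 < j) :
    ∑ m ∈ Ioc 0 W, Λ m * (if j ≤ W / m then (1 : ℝ) else 0) = Chebyshev.psi (W / j : ℕ) := by
  rw [Chebyshev.psi, Nat.floor_natCast]
  simp_rw [mul_ite, mul_one, mul_zero]
  rw [← sum_filter]
  congr 1
  ext m
  simp only [mem_filter, mem_Ioc]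
  constructor
  · rintro ⟨⟨h1, _⟩, h3⟩
    refine ⟨h1, ?_⟩
    rw [Nat.le_div_iff_mul_le h1] at h3
    rw [Nat.le_div_iff_mul_le hj, mul_comm]; exact h3
  · rintro ⟨h1, h2⟩
    refine ⟨⟨h1, h2.trans (Nat.div_le_self _ _)⟩, ?_⟩
    rw [Nat.le_div_iff_mul_le hj] at h2
    rw [Nat.le_div_iff_mul_le h1, mul_comm]; exact h2

lemma main_upper (t : ℕ) (ht : 1 ≤ t) :
    ∑ m ∈ Ioc 0 (60 * t), Λ m * ((FF (60 * t / m) : ℝ) + chi m * GG (60 * t / m)) ≤
      4 * ((((Ioc (20 * t) (30 * t)).filter (fun p => p.Prime ∧ p % 4 = 1)).card : ℝ)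
        * Real.log (60 * t : ℕ) + (Chebyshev.psi (30 * t : ℕ) - Chebyshev.theta (30 * t : ℕ)))
      + 2 * Chebyshev.psi (60 * t / 26 : ℕ) + 2 * Chebyshev.psi (60 * t / 34 : ℕ) := by
  set P := (Ioc (20 * t) (30 * t)).filter (fun p => p.Prime ∧ p % 4 = 1) with hP
  set Q := (Ioc 0 (30 * t)).filter (fun n => ¬ n.Prime) with hQ
  have h1 : ∀ m ∈ Ioc 0 (60 * t), Λ m * ((FF (60 * t / m) : ℝ) + chi m * GG (60 * t / m)) ≤
      4 * ((if m ∈ P then Λ m else 0) + (if m ∈ Q then Λ m else 0))
      + 2 * (Λ m * (if 26 ≤ 60 * t / m then (1 : ℝ) else 0))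
      + 2 * (Λ m * (if 34 ≤ 60 * t / m then (1 : ℝ) else 0)) := by
    intro m hm
    have hm0 := (mem_Ioc.1 hm).1
    have hw := weights (60 * t / m)
    have hL : (0 : ℝ) ≤ Λ m := vonMangoldt_nonneg
    have key : FF (60 * t / m) + chi m * GG (60 * t / m) ≤
        4 * ((if m ∈ P then 1 else 0) + (if m ∈ Q then 1 else 0)) + UU (60 * t / m) := by
      have p0 : (0 : ℤ) ≤ if m ∈ P then 1 else 0 := by split_ifs <;> norm_num
      have q0 : (0 : ℤ) ≤ if m ∈ Q then 1 else 0 := by split_ifs <;> norm_num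
      have hc : (m % 2 = 0 ∧ chi m = 0) ∨ (m % 4 = 1 ∧ chi m = 1) ∨ (m % 4 = 3 ∧ chi m = -1) := by
        rw [chi_eq]; split_ifs <;> omega
      by_cases hk : 60 * t / m = 2
      · rw [if_pos hk] at hw
        have hk' := hk
        rw [Nat.div_eq_iff hm0] at hk'
        by_cases h3 : m % 4 = 3
        · rw [chi_eq, if_neg (by omega), if_neg (by omega)]; linarith [hw.2]
        have hPQ : (1 : ℤ) ≤ (if m ∈ P then 1 else 0) + (if m ∈ Q then 1 else 0) := by
          by_cases hp : m.Prime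
          · have : m % 2 = 1 := hp.eq_two_or_odd.resolve_left (by omega)
            rw [if_pos (show m ∈ P by
              simp only [hP, mem_filter, mem_Ioc]; exact ⟨by omega, hp, by omega⟩)]
            linarith
          · rw [if_pos (show m ∈ Q by
              simp only [hQ, mem_filter, mem_Ioc]; exact ⟨by omega, hp⟩)]
            linarith
        rcases hc with ⟨-, hc⟩ | ⟨-, hc⟩ | ⟨hc, -⟩
        · rw [hc]; linarith [hw.1, hw.2]
        · rw [hc]; linarith [hw.1, hw.2]
        · exact absurd hc h3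
      · rw [if_neg hk] at hw
        rcases hc with ⟨-, hc⟩ | ⟨-, hc⟩ | ⟨-, hc⟩ <;> rw [hc] <;> linarith [hw.1, hw.2]
    have key' : (FF (60 * t / m) : ℝ) + chi m * GG (60 * t / m) ≤
        4 * ((if m ∈ P then 1 else 0) + (if m ∈ Q then 1 else 0)) + UU (60 * t / m) := by
      exact_mod_cast key
    refine (mul_le_mul_of_nonneg_left key' hL).trans (le_of_eq ?_)
    unfold UU
    split_ifs <;> push_cast <;> ring
  refine (sum_le_sum h1).trans ?_
  rw [sum_add_distrib, sum_add_distrib, ← mul_sum, ← mul_sum, ← mul_sum, sum_add_distrib,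
    sum_le_psi _ _ (by norm_num), sum_le_psi _ _ (by norm_num),
    Chebyshev.psi_sub_theta_eq_sum_not_prime, Nat.floor_natCast, sum_ite_mem, sum_ite_mem]
  gcongr
  · calc ∑ i ∈ Ioc 0 (60 * t) ∩ P, Λ i ≤ ∑ i ∈ P, Λ i :=
          sum_le_sum_of_subset_of_nonneg inter_subset_right fun _ _ _ => vonMangoldt_nonneg
      _ ≤ _ := by
          rw [← nsmul_eq_mul]
          apply sum_le_card_nsmul
          intro p hp
          simp only [hP, mem_filter, mem_Ioc] at hp
          exact vonMangoldt_le_log.trans (log_le_log_nat (by omega))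
  · exact inter_subset_right

lemma main_lower (t : ℕ) (ht : 1 ≤ t) :
    (24 * Real.log 3 - 18 * Real.log 2) * t - 10 - 21 * Real.log (60 * t : ℕ) ≤
    ∑ m ∈ Ioc 0 (60 * t), Λ m * ((FF (60 * t / m) : ℝ) + chi m * GG (60 * t / m)) := by
  have e : ∑ m ∈ Ioc 0 (60 * t), Λ m * ((FF (60 * t / m) : ℝ) + chi m * GG (60 * t / m))
      = 2 * Real.log (60 * t / 2).factorial - 2 * Real.log (60 * t / 3).factorial
        - 2 * Real.log (60 * t / 4).factorial - 2 * Real.log (60 * t / 10).factorial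
        + 2 * Real.log (60 * t / 12).factorial + Real.log (60 * t / 15).factorial
        + 2 * Real.log (60 * t / 20).factorial + 3 * Real.log (60 * t / 30).factorial
        - 4 * Real.log (60 * t / 60).factorial
        + (2 * AA (60 * t / 2) - 2 * AA (60 * t / 3) + 2 * AA (60 * t / 6)
          - 2 * AA (60 * t / 10) + AA (60 * t / 15) - 2 * AA (60 * t / 30)) := by
    simp only [log_factorial_eq, AA_eq, mul_sum, ← sum_add_distrib, ← sum_sub_distrib]
    refine sum_congr rfl fun m _ => ?_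
    simp only [FF, GG, Int.cast_add, Int.cast_sub, Int.cast_mul, Int.cast_ofNat, Int.cast_natCast]
    ring
  rw [e]
  have a2 := abs_le.1 (abs_AA_le (60 * t) 2)
  have a3 := abs_le.1 (abs_AA_le (60 * t) 3)
  have a6 := abs_le.1 (abs_AA_le (60 * t) 6)
  have a10 := abs_le.1 (abs_AA_le (60 * t) 10)
  have a15 := abs_le.1 (abs_AA_le (60 * t) 15)
  have a30 := abs_le.1 (abs_AA_le (60 * t) 30)
  have ht0 : (t : ℝ) ≠ 0 := by exact_mod_cast (by omega : t ≠ 0)
  have lo : ∀ c : ℕ, 1 ≤ c → (c : ℝ) * t * (Real.log c + Real.log t) - c * t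
      ≤ Real.log (c * t).factorial := by
    intro c hc
    have := le_log_factorial (c * t) (Nat.mul_pos hc ht)
    rw [Nat.cast_mul, Real.log_mul (by exact_mod_cast (by omega : c ≠ 0)) ht0] at this
    exact this
  have hi : ∀ c : ℕ, 1 ≤ c → c ≤ 60 → Real.log (c * t).factorial ≤
      (c : ℝ) * t * (Real.log c + Real.log t) - c * t + 1 + Real.log (60 * t : ℕ) := by
    intro c hc hc'
    have := log_factorial_le (c * t) (Nat.mul_pos hc ht)
    have h2 := log_le_log_nat (Nat.mul_le_mul_right t hc')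
    rw [Nat.cast_mul, Real.log_mul (by exact_mod_cast (by omega : c ≠ 0)) ht0] at this h2
    linarith
  rw [show 60 * t / 2 = 30 * t by omega, show 60 * t / 3 = 20 * t by omega,
    show 60 * t / 10 = 6 * t by omega, show 60 * t / 15 = 4 * t by omega,
    show 60 * t / 30 = 2 * t by omega] at *
  rw [show 60 * t / 4 = 15 * t by omega, show 60 * t / 12 = 5 * t by omega,
    show 60 * t / 20 = 3 * t by omega, show 60 * t / 60 = 1 * t by omega]
  have b30 := lo 30 (by norm_num)
  have b20 := hi 20 (by norm_num) (by norm_num)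
  have b15 := hi 15 (by norm_num) (by norm_num)
  have b6 := hi 6 (by norm_num) (by norm_num)
  have b5 := lo 5 (by norm_num)
  have b4 := lo 4 (by norm_num)
  have b3 := lo 3 (by norm_num)
  have b2 := lo 2 (by norm_num)
  have b1 := hi 1 (by norm_num) (by norm_num)
  have l30 : Real.log 30 = Real.log 2 + Real.log 3 + Real.log 5 := by
    rw [← Real.log_mul (by norm_num) (by norm_num), ← Real.log_mul (by norm_num) (by norm_num)]
    norm_num
  have l4 : Real.log 4 = 2 * Real.log 2 := by
    rw [show (4 : ℝ) = 2 ^ 2 by norm_num, Real.log_pow]; norm_num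
  have l20 : Real.log 20 = 2 * Real.log 2 + Real.log 5 := by
    rw [← l4, ← Real.log_mul (by norm_num) (by norm_num)]; norm_num
  have l15 : Real.log 15 = Real.log 3 + Real.log 5 := by
    rw [← Real.log_mul (by norm_num) (by norm_num)]; norm_num
  have l6 : Real.log 6 = Real.log 2 + Real.log 3 := by
    rw [← Real.log_mul (by norm_num) (by norm_num)]; norm_num
  simp only [Nat.cast_ofNat, Nat.cast_one, Real.log_one, l30, l4, l20, l15,
    l6] at b30 b20 b15 b6 b5 b4 b3 b2 b1
  linarith

lemma count_lower (t : ℕ) (ht : 1000000 ≤ t) :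
    18 * Real.sqrt t < (((Ioc (20 * t) (30 * t)).filter (fun p => p.Prime ∧ p % 4 = 1)).card : ℝ) := by
  have h := (main_lower t (by omega)).trans (main_upper t (by omega))
  set N : ℝ := (((Ioc (20 * t) (30 * t)).filter (fun p => p.Prime ∧ p % 4 = 1)).card : ℝ)
  set L := Real.log (60 * t : ℕ) with hL
  set s := Real.sqrt t with hs
  have ht' : (1000000 : ℝ) ≤ t := by exact_mod_cast ht
  have hss : s * s = t := Real.mul_self_sqrt (by positivity)
  have hs1 : 1000 ≤ s := Real.le_sqrt_of_sq_le (by linarith)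
  have l2 := Real.log_two_gt_d9
  have l2' := Real.log_two_lt_d9
  have l3 := Real.log_three_gt_d9
  have l4 : Real.log 4 = 2 * Real.log 2 := by
    rw [show (4 : ℝ) = 2 ^ 2 by norm_num, Real.log_pow]; norm_num
  have hL0 : 0 < L := Real.log_pos (by push_cast; linarith)
  have hL1 : L ≤ 16.1 + s / 512 := by
    have a1 : L ≤ Real.log (2 ^ 26 * (s / 1024) ^ 2) := by
      apply Real.log_le_log (by push_cast; linarith)
      push_cast; nlinarith
    rw [Real.log_mul (by positivity) (by positivity), Real.log_pow, Real.log_pow] at a1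
    have a2 := Real.log_le_sub_one_of_pos (show 0 < s / 1024 by positivity)
    push_cast at a1
    linarith
  have sq : ∀ (n : ℕ) (c : ℝ), 0 ≤ c → 1 ≤ n → n ≤ 60 * t → (n : ℝ) ≤ c ^ 2 * t →
      2 * √n * Real.log n ≤ 2 * c * s * L := by
    intro n c hc hn hn' hnc
    have a1 : √n ≤ c * s := Real.sqrt_le_iff.2 ⟨by positivity, by rw [mul_pow, sq s, hss]; exact hnc⟩
    have a2 : Real.log n ≤ L := log_le_log_nat hn'
    have a3 := Real.log_natCast_nonneg n
    calc 2 * √n * Real.log n ≤ 2 * (c * s) * L := by gcongr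
      _ = _ := by ring
  have c1 := Chebyshev.psi_sub_theta_le (x := (30 * t : ℕ)) (by push_cast; linarith)
  have c1' := sq (30 * t) 5.5 (by norm_num) (by omega) (by omega) (by push_cast; nlinarith)
  have d26 : ((60 * t / 26 : ℕ) : ℝ) ≤ 60 * t / 26 := by
    simpa using Nat.cast_div_le (α := ℝ) (m := 60 * t) (n := 26)
  have d34 : ((60 * t / 34 : ℕ) : ℝ) ≤ 60 * t / 34 := by
    simpa using Nat.cast_div_le (α := ℝ) (m := 60 * t) (n := 34)
  have c2 := Chebyshev.psi_le (x := (60 * t / 26 : ℕ))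
    (by exact_mod_cast (by omega : 1 ≤ 60 * t / 26))
  have c2' := sq (60 * t / 26) 1.52 (by norm_num) (by omega) (by omega) (by nlinarith)
  have c3 := Chebyshev.psi_le (x := (60 * t / 34 : ℕ))
    (by exact_mod_cast (by omega : 1 ≤ 60 * t / 34))
  have c3' := sq (60 * t / 34) 1.33 (by norm_num) (by omega) (by omega) (by nlinarith)
  have c4 := mul_le_mul_of_nonneg_left d26 (show 0 ≤ Real.log 4 by linarith)
  have c5 := mul_le_mul_of_nonneg_left d34 (show 0 ≤ Real.log 4 by linarith)
  rw [l4] at c2 c3 c4 c5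
  have c6 := mul_le_mul_of_nonneg_right l2'.le (show (0 : ℝ) ≤ t by positivity)
  have c7 := mul_le_mul_of_nonneg_right l3.le (show (0 : ℝ) ≤ t by positivity)
  have h2 : 2.59 * t - 10 - 21 * L - 55.4 * (s * L) ≤ 4 * (N * L) := by nlinarith
  have h3 : s * L ≤ s * (16.1 + s / 512) := mul_le_mul_of_nonneg_left hL1 (by linarith)
  have h4 : 72 * (s * L) < 4 * (N * L) := by nlinarith
  by_contra hc
  have := mul_le_mul_of_nonneg_right (not_lt.1 hc) hL0.le
  nlinarith

theorem many_primes_one_mod_four (x : ℕ) (hx : 20000000 ≤ x) :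
    4 * Real.sqrt x <
      (((Finset.Ioc x (19 * x / 10)).filter (fun p => p.Prime ∧ p % 4 = 1)).card : ℝ) := by
  set t := (x + 19) / 20 with ht
  have h := count_lower t (by omega)
  have h1 : √x ≤ 4.5 * √t := by
    have : (x : ℝ) ≤ 20 * t := by exact_mod_cast (by omega : x ≤ 20 * t)
    refine Real.sqrt_le_iff.2 ⟨by positivity, ?_⟩
    rw [mul_pow, Real.sq_sqrt (by positivity)]
    have : (0 : ℝ) ≤ t := by positivity
    linarith
  have h2 : (((Ioc (20 * t) (30 * t)).filter (fun p => p.Prime ∧ p % 4 = 1)).card : ℝ) ≤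
      (((Finset.Ioc x (19 * x / 10)).filter (fun p => p.Prime ∧ p % 4 = 1)).card : ℝ) := by
    exact_mod_cast card_le_card (filter_subset_filter _ (Ioc_subset_Ioc (by omega) (by omega)))
  linarith

end Pool.Agent.MP_e47a12_co
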