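import Mathlib.Topology.Sheaves.Presheaf
import Mathlib.Tactic.Monotonicity.Lemmas
import Mathlib.Analysis.CStarAlgebra.Classes
import Mathlib.Combinatorics.SimpleGraph.Basic
import Mathlib.MeasureTheory.Measure.Lebesgue.VolumeOfBalls
import Mathlib.NumberTheory.SumTwoSquares
import Mathlib.Order.CompletePartialOrder
import Pool.Agent.MP_e47a12_co.Primes

-- ======== part 0: formerly Pool.Agent.MP_e47a12_co.Basic
section MrgPart0

/-! Lattice points inside and on a circle with centre `(u, v)` and squared radius `ρ`. -/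

namespace Pool.Agent.MP_e47a12_co

open Set MeasureTheory

/-- squared distance from a lattice point to `(u, v)` -/
def dsq (u v : ℝ) (z : ℤ × ℤ) : ℝ := ((z.1 : ℝ) - u) ^ 2 + ((z.2 : ℝ) - v) ^ 2

/-- lattice points inside the circle -/
def ins (u v ρ : ℝ) : Set (ℤ × ℤ) := {z | dsq u v z < ρ}

/-- lattice points on the circle -/
def bd (u v ρ : ℝ) : Set (ℤ × ℤ) := {z | dsq u v z = ρ}

/-- a circle through three lattice points with exactly `n` lattice points inside -/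
def Lat (n : ℕ) (u v ρ : ℝ) : Prop :=
  (ins u v ρ).ncard = n ∧ ∃ A ∈ bd u v ρ, ∃ B ∈ bd u v ρ, ∃ C ∈ bd u v ρ, A ≠ B ∧ A ≠ C ∧ B ≠ C

/-- there is an `n`-enclosing lattice circle -/
def Ex (n : ℕ) : Prop := ∃ u v ρ, Lat n u v ρ

lemma finite_le (u v ρ : ℝ) : {z : ℤ × ℤ | dsq u v z ≤ ρ}.Finite := by
  refine ((Set.finite_Icc ⌊u - ρ - 1⌋ ⌈u + ρ + 1⌉).prod
    (Set.finite_Icc ⌊v - ρ - 1⌋ ⌈v + ρ + 1⌉)).subset ?_
  rintro ⟨x, y⟩ h
  simp only [mem_ofPred_eq, dsq] at h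
  have h1 := sq_nonneg ((x : ℝ) - u)
  have h2 := sq_nonneg ((y : ℝ) - v)
  refine ⟨⟨Int.floor_le_iff.2 ?_, Int.le_ceil_iff.2 ?_⟩, Int.floor_le_iff.2 ?_, Int.le_ceil_iff.2 ?_⟩
  · nlinarith [sq_nonneg ((x : ℝ) - u + 1)]
  · nlinarith [sq_nonneg ((x : ℝ) - u - 1)]
  · nlinarith [sq_nonneg ((y : ℝ) - v + 1)]
  · nlinarith [sq_nonneg ((y : ℝ) - v - 1)]

lemma ins_finite (u v ρ : ℝ) : (ins u v ρ).Finite :=
  (finite_le u v ρ).subset fun z (h : dsq u v z < ρ) => h.le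

lemma dsq_shift (u v : ℝ) (k z : ℤ × ℤ) : dsq (u + k.1) (v + k.2) (z + k) = dsq u v z := by
  simp only [dsq, Prod.fst_add, Prod.snd_add]; push_cast; ring

lemma ins_shift (u v ρ : ℝ) (k : ℤ × ℤ) :
    ins (u + k.1) (v + k.2) ρ = (fun z => z + k) '' ins u v ρ := by
  ext z
  constructor
  · intro h
    refine ⟨z - k, ?_, by simp⟩
    have := dsq_shift u v k (z - k)
    rw [sub_add_cancel] at this
    simpa [ins, this] using h
  · rintro ⟨w, hw, rfl⟩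
    simpa [ins, dsq_shift] using hw

lemma ncard_shift (u v ρ : ℝ) (k : ℤ × ℤ) :
    (ins (u + k.1) (v + k.2) ρ).ncard = (ins u v ρ).ncard := by
  rw [ins_shift, Set.ncard_image_of_injective _ (add_left_injective k)]

lemma mem_bd_shift (u v ρ : ℝ) (k z : ℤ × ℤ) :
    z ∈ bd (u + k.1) (v + k.2) ρ ↔ z - k ∈ bd u v ρ := by
  have := dsq_shift u v k (z - k)
  rw [sub_add_cancel] at this
  simp [bd, this]

/-- unit square centred at a lattice point -/
def sqr (z : ℤ × ℤ) : Set (ℝ × ℝ) :=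
  Ico ((z.1 : ℝ) - 1 / 2) (z.1 + 1 / 2) ×ˢ Ico ((z.2 : ℝ) - 1 / 2) (z.2 + 1 / 2)

lemma volume_sqr (z : ℤ × ℤ) : volume (sqr z) = 1 := by
  rw [sqr, Measure.volume_eq_prod, Measure.prod_prod, Real.volume_Ico, Real.volume_Ico]
  norm_num

lemma measurableSet_sqr (z : ℤ × ℤ) : MeasurableSet (sqr z) :=
  measurableSet_Ico.prod measurableSet_Ico

lemma sqr_disjoint {z w : ℤ × ℤ} (h : z ≠ w) : Disjoint (sqr z) (sqr w) := by
  rw [Set.disjoint_left]
  rintro ⟨x, y⟩ ⟨⟨a1, a2⟩, a3, a4⟩ ⟨⟨b1, b2⟩, b3, b4⟩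
  apply h
  simp only at a1 a2 a3 a4 b1 b2 b3 b4
  have c1 : z.1 < w.1 + 1 := by exact_mod_cast (by linarith : (z.1 : ℝ) < w.1 + 1)
  have c2 : w.1 < z.1 + 1 := by exact_mod_cast (by linarith : (w.1 : ℝ) < z.1 + 1)
  have c3 : z.2 < w.2 + 1 := by exact_mod_cast (by linarith : (z.2 : ℝ) < w.2 + 1)
  have c4 : w.2 < z.2 + 1 := by exact_mod_cast (by linarith : (w.2 : ℝ) < z.2 + 1)
  ext <;> omega

lemma volume_union (S : Finset (ℤ × ℤ)) : volume (⋃ z ∈ S, sqr z) = S.card := by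
  rw [measure_biUnion_finset (fun z _ w _ h => sqr_disjoint h) fun z _ => measurableSet_sqr z]
  simp [volume_sqr]

/-- open disc in the coordinate plane -/
def disc (u v R : ℝ) : Set (ℝ × ℝ) := {q | (q.1 - u) ^ 2 + (q.2 - v) ^ 2 < R ^ 2}

lemma volume_disc (u v R : ℝ) (hR : 0 < R) :
    volume (disc u v R) = ENNReal.ofReal (Real.pi * R ^ 2) := by
  have hm : MeasurableSet (disc u v R) :=
    measurableSet_lt (by fun_prop) (by fun_prop)
  rw [← Complex.volume_preserving_equiv_real_prod.measure_preimage hm.nullMeasurableSet]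
  have : Complex.measurableEquivRealProd ⁻¹' disc u v R = Metric.ball ⟨u, v⟩ R := by
    ext z
    simp only [disc, mem_preimage, Complex.measurableEquivRealProd_apply, mem_ofPred_eq,
      Metric.mem_ball, Complex.dist_eq_re_im]
    rw [Real.sqrt_lt' hR]
  rw [this, Complex.volume_ball, mul_comm, ENNReal.ofReal_mul Real.pi_pos.le,
    ENNReal.ofReal_pow hR.le]
  congr 1
  simp [← NNReal.coe_real_pi]

lemma near_lt {a b c d R : ℝ} (hR : 0 < R) (h : a ^ 2 + b ^ 2 < R ^ 2)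
    (hc : |c| ≤ 1 / 2) (hd : |d| ≤ 1 / 2) :
    (a + c) ^ 2 + (b + d) ^ 2 < (R + 0.7072) ^ 2 := by
  have c2 : c ^ 2 ≤ 1 / 4 := by nlinarith [abs_le.1 hc]
  have d2 : d ^ 2 ≤ 1 / 4 := by nlinarith [abs_le.1 hd]
  have h1 : (a * c + b * d) ^ 2 ≤ (R * 0.7072) ^ 2 := by
    have : (a * c + b * d) ^ 2 ≤ (a ^ 2 + b ^ 2) * (c ^ 2 + d ^ 2) := by
      nlinarith [sq_nonneg (a * d - b * c)]
    have h3 : (a ^ 2 + b ^ 2) * (c ^ 2 + d ^ 2) ≤ R ^ 2 * (1 / 2) :=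
      mul_le_mul h.le (by linarith) (by positivity) (by positivity)
    nlinarith [sq_nonneg R]
  have h2 := (abs_le_of_sq_le_sq' h1 (by positivity)).2
  nlinarith

/-- Gauss' upper bound -/
lemma gauss_upper (u v ρ R : ℝ) (hR : 0 < R) (h : ρ ≤ R ^ 2) :
    ((ins u v ρ).ncard : ℝ) ≤ 3.1416 * (R + 0.7072) ^ 2 := by
  have hs : (⋃ z ∈ (ins_finite u v ρ).toFinset, sqr z) ⊆ disc u v (R + 0.7072) := by
    rintro ⟨x, y⟩ hq
    simp only [mem_iUnion, Finite.mem_toFinset] at hq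
    obtain ⟨z, hz, ⟨a1, a2⟩, a3, a4⟩ := hq
    have := near_lt (c := x - z.1) (d := y - z.2) hR (lt_of_lt_of_le hz h)
      (abs_le.2 ⟨by linarith, by linarith⟩) (abs_le.2 ⟨by linarith, by linarith⟩)
    simp only [disc, mem_ofPred_eq]
    convert this using 3 <;> ring
  have h1 := measure_mono (μ := volume) hs
  rw [volume_union, volume_disc _ _ _ (by positivity), ← ENNReal.ofReal_natCast,
    ENNReal.ofReal_le_ofReal_iff (by positivity)] at h1
  rw [Set.ncard_eq_toFinset_card _ (ins_finite u v ρ)]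
  refine h1.trans (mul_le_mul_of_nonneg_right ?_ (by positivity))
  linarith [Real.pi_lt_d4]

/-- Gauss' lower bound -/
lemma gauss_lower (u v ρ R : ℝ) (hR : 0 < R) (h : (R + 0.7072) ^ 2 ≤ ρ) :
    3.1415 * R ^ 2 ≤ ((ins u v ρ).ncard : ℝ) := by
  have hs : disc u v R ⊆ ⋃ z ∈ (ins_finite u v ρ).toFinset, sqr z := by
    rintro ⟨x, y⟩ hq
    simp only [mem_iUnion, Finite.mem_toFinset]
    have a1 := Int.floor_le (x + 1 / 2)
    have a2 := Int.lt_floor_add_one (x + 1 / 2)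
    have a3 := Int.floor_le (y + 1 / 2)
    have a4 := Int.lt_floor_add_one (y + 1 / 2)
    refine ⟨(⌊x + 1 / 2⌋, ⌊y + 1 / 2⌋), ?_, ⟨by simp only; linarith, by simp only; linarith⟩,
      by simp only; linarith, by simp only; linarith⟩
    have := near_lt (c := ⌊x + 1 / 2⌋ - x) (d := ⌊y + 1 / 2⌋ - y) hR hq
      (abs_le.2 ⟨by linarith, by linarith⟩) (abs_le.2 ⟨by linarith, by linarith⟩)
    simp only [ins, dsq, mem_ofPred_eq]
    refine lt_of_lt_of_le ?_ h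
    refine lt_of_eq_of_lt ?_ this
    ring
  have h1 := measure_mono (μ := volume) hs
  rw [volume_union, volume_disc _ _ _ hR, ← ENNReal.ofReal_natCast,
    ENNReal.ofReal_le_ofReal_iff (by positivity)] at h1
  rw [Set.ncard_eq_toFinset_card _ (ins_finite u v ρ)]
  refine le_trans (mul_le_mul_of_nonneg_right ?_ (by positivity)) h1
  linarith [Real.pi_gt_d4]

end Pool.Agent.MP_e47a12_co

end MrgPart0

-- ======== part 1: formerly Pool.Agent.MP_e47a12_co.Pencil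
section MrgPart1

/-! The pencil of circles through `0` and `(a, b)` when `a ^ 2 + b ^ 2` is prime. -/

namespace Pool.Agent.MP_e47a12_co

open Set Filter Topology

noncomputable def pu (a b : ℤ) (t : ℝ) : ℝ := (a - t * b) / 2
noncomputable def pv (a b : ℤ) (t : ℝ) : ℝ := (b + t * a) / 2
noncomputable def pr (a b : ℤ) (t : ℝ) : ℝ := (a ^ 2 + b ^ 2) * (1 + t ^ 2) / 4
def ff (a b : ℤ) (z : ℤ × ℤ) : ℤ := z.1 ^ 2 + z.2 ^ 2 - a * z.1 - b * z.2
def gg (a b : ℤ) (z : ℤ × ℤ) : ℤ := a * z.2 - b * z.1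
def pin (a b : ℤ) (t : ℝ) : Set (ℤ × ℤ) := ins (pu a b t) (pv a b t) (pr a b t)
def pbd (a b : ℤ) (t : ℝ) : Set (ℤ × ℤ) := bd (pu a b t) (pv a b t) (pr a b t)

lemma dsq_pencil (a b : ℤ) (t : ℝ) (z : ℤ × ℤ) :
    dsq (pu a b t) (pv a b t) z = pr a b t + (ff a b z - t * gg a b z) := by
  simp only [dsq, pu, pv, pr, ff, gg]; push_cast; ring

lemma mem_pin {a b : ℤ} {t : ℝ} {z : ℤ × ℤ} : z ∈ pin a b t ↔ (ff a b z : ℝ) < t * gg a b z := by
  simp only [pin, ins, mem_ofPred_eq, dsq_pencil]; constructor <;> intro h <;> linarith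

lemma mem_pbd {a b : ℤ} {t : ℝ} {z : ℤ × ℤ} : z ∈ pbd a b t ↔ (ff a b z : ℝ) = t * gg a b z := by
  simp only [pbd, bd, mem_ofPred_eq, dsq_pencil]; constructor <;> intro h <;> linarith

lemma zero_mem_pbd (a b : ℤ) (t : ℝ) : ((0, 0) : ℤ × ℤ) ∈ pbd a b t := by
  simp [mem_pbd, ff, gg]

lemma beta_mem_pbd (a b : ℤ) (t : ℝ) : ((a, b) : ℤ × ℤ) ∈ pbd a b t := by
  have h1 : ff a b (a, b) = 0 := by simp only [ff]; ring
  have h2 : gg a b (a, b) = 0 := by simp only [gg]; ring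
  simp [mem_pbd, h1, h2]

lemma split_norm {a b x y : ℤ} (hp : Prime (a ^ 2 + b ^ 2)) (h : a ^ 2 + b ^ 2 ∣ a * y - b * x) :
    ∃ k l : ℤ, x = a * k - b * l ∧ y = b * k + a * l := by
  obtain ⟨l, hl⟩ := h
  have h1 : a ^ 2 + b ^ 2 ∣ (a * x + b * y) ^ 2 :=
    ⟨x ^ 2 + y ^ 2 - (a ^ 2 + b ^ 2) * l ^ 2, by
      linear_combination (-(a * y - b * x) - (a ^ 2 + b ^ 2) * l) * hl⟩
  obtain ⟨k, hk⟩ := hp.dvd_of_dvd_pow h1
  refine ⟨k, l, mul_left_cancel₀ hp.ne_zero ?_, mul_left_cancel₀ hp.ne_zero ?_⟩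
  · linear_combination a * hk - b * hl
  · linear_combination b * hk + a * hl

lemma ends {a b : ℤ} (hp : Prime (a ^ 2 + b ^ 2)) {t : ℝ} (h0 : 0 ≤ t) (h1 : t < 1) {z : ℤ × ℤ}
    (hz : z ∈ pbd a b t) (h : a ^ 2 + b ^ 2 ∣ gg a b z) : z = (0, 0) ∨ z = (a, b) := by
  obtain ⟨x, y⟩ := z
  obtain ⟨k, l, hx, hy⟩ := split_norm hp h
  simp only at hx hy
  subst hx hy
  rw [mem_pbd] at hz
  simp only [ff, gg] at hz
  push_cast at hz
  have hp0 : ((a : ℝ) ^ 2 + b ^ 2) ≠ 0 := by exact_mod_cast hp.ne_zero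
  have h2 : (k : ℝ) ^ 2 - k + l ^ 2 = t * l := by
    apply mul_left_cancel₀ hp0
    linear_combination hz
  have hk : 0 ≤ k ^ 2 - k := by nlinarith [sq_nonneg (2 * k - 1), Int.emod_emod_of_dvd]
  have hk' : (0 : ℝ) ≤ (k : ℝ) ^ 2 - k := by exact_mod_cast hk
  have hl : l = 0 := by
    rcases lt_trichotomy l 0 with h | h | h
    · have : (l : ℝ) ≤ -1 := by exact_mod_cast (by omega : l ≤ -1)
      nlinarith
    · exact h
    · have : (1 : ℝ) ≤ l := by exact_mod_cast (by omega : 1 ≤ l)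
      nlinarith
  subst hl
  have h3 : k * (k - 1) = 0 := by
    have : (k : ℝ) * (k - 1) = 0 := by push_cast at h2; linarith
    exact_mod_cast this
  rcases mul_eq_zero.1 h3 with h | h
  · left; simp [h]
  · right; simp [show k = 1 by omega]

lemma chord_le {u v ρ : ℝ} {P Q : ℤ × ℤ} (hP : dsq u v P ≤ ρ) (hQ : dsq u v Q ≤ ρ) :
    (((Q.1 - P.1) ^ 2 + (Q.2 - P.2) ^ 2 : ℤ) : ℝ) ≤ 4 * ρ := by
  simp only [dsq] at hP hQ
  push_cast
  nlinarith [sq_nonneg ((P.1 : ℝ) + Q.1 - 2 * u), sq_nonneg ((P.2 : ℝ) + Q.2 - 2 * v)]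

/-- the four possible differences of two further points of a circle of the pencil -/
def Dif (a b : ℤ) (P Q : ℤ × ℤ) : Prop :=
  (Q.1 = P.1 + a ∧ Q.2 = P.2 - b) ∨ (Q.1 = P.1 - a ∧ Q.2 = P.2 + b) ∨
  (Q.1 = P.1 + b ∧ Q.2 = P.2 + a) ∨ (Q.1 = P.1 - b ∧ Q.2 = P.2 - a)

lemma dif {a b : ℤ} (hp : Prime (a ^ 2 + b ^ 2)) {t : ℝ} (h0 : 0 ≤ t) (h1 : t < 1)
    {P Q : ℤ × ℤ} (hP : P ∈ pbd a b t) (hQ : Q ∈ pbd a b t) (hP0 : P ≠ (0, 0)) (hP1 : P ≠ (a, b))
    (hQ0 : Q ≠ (0, 0)) (hQ1 : Q ≠ (a, b)) (hPQ : P ≠ Q) : Dif a b P Q := by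
  have hc := chord_le (le_of_eq hP) (le_of_eq hQ)
  have e : ff a b P * gg a b Q = ff a b Q * gg a b P := by
    have : (ff a b P : ℝ) * gg a b Q = ff a b Q * gg a b P := by
      rw [mem_pbd.1 hP, mem_pbd.1 hQ]; ring
    exact_mod_cast this
  have hd : a ^ 2 + b ^ 2 ∣ gg a b P * gg a b Q * (a * (Q.2 - P.2) - (-b) * (Q.1 - P.1)) := by
    refine ⟨(Q.2 ^ 2 - b * Q.2) * gg a b P - (P.2 ^ 2 - b * P.2) * gg a b Q, ?_⟩
    simp only [ff, gg] at e ⊢
    linear_combination b ^ 2 * e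
  rcases hp.dvd_or_dvd hd with h | h
  · rcases hp.dvd_or_dvd h with h | h
    · exact absurd (ends hp h0 h1 hP h) (by tauto)
    · exact absurd (ends hp h0 h1 hQ h) (by tauto)
  have hp' : Prime (a ^ 2 + (-b) ^ 2) := by simpa using hp
  obtain ⟨k, l, hx, hy⟩ := split_norm hp' (by simpa using h)
  have hp0 : 0 < a ^ 2 + b ^ 2 := lt_of_le_of_ne (by positivity) hp.ne_zero.symm
  have hp1 : (0 : ℝ) < a ^ 2 + b ^ 2 := by exact_mod_cast hp0
  have h2 : k ^ 2 + l ^ 2 < 2 := by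
    rw [hx, hy] at hc
    simp only [pr] at hc
    push_cast at hc
    have : ((a : ℝ) ^ 2 + b ^ 2) * (k ^ 2 + l ^ 2) < (a ^ 2 + b ^ 2) * 2 := by
      have : ((a : ℝ) ^ 2 + b ^ 2) * t ^ 2 < (a ^ 2 + b ^ 2) * 1 :=
        mul_lt_mul_of_pos_left (by nlinarith) hp1
      nlinarith
    have := lt_of_mul_lt_mul_left this hp1.le
    exact_mod_cast this
  have hk : -1 ≤ k ∧ k ≤ 1 := ⟨by nlinarith [sq_nonneg l], by nlinarith [sq_nonneg l]⟩
  have hl : -1 ≤ l ∧ l ≤ 1 := ⟨by nlinarith [sq_nonneg k], by nlinarith [sq_nonneg k]⟩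
  have hne : ¬ (P.1 = Q.1 ∧ P.2 = Q.2) := fun h => hPQ (Prod.ext h.1 h.2)
  obtain ⟨hk1, hk2⟩ := hk
  obtain ⟨hl1, hl2⟩ := hl
  unfold Dif
  interval_cases k <;> interval_cases l <;> omega

lemma third {a b : ℤ} (hb : 0 < b) (hab : b < a) (hp : Prime (a ^ 2 + b ^ 2)) {t : ℝ}
    (h0 : 0 ≤ t) (h1 : t < 1) {P Q R : ℤ × ℤ} (hP : P ∈ pbd a b t) (hQ : Q ∈ pbd a b t)
    (hR : R ∈ pbd a b t) (hP0 : P ≠ (0, 0)) (hP1 : P ≠ (a, b))
    (hQ0 : Q ≠ (0, 0)) (hQ1 : Q ≠ (a, b)) (hPQ : P ≠ Q) :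
    R = (0, 0) ∨ R = (a, b) ∨ R = P ∨ R = Q := by
  by_contra hc
  push Not at hc
  obtain ⟨c1, c2, c3, c4⟩ := hc
  have d1 := dif hp h0 h1 hP hQ hP0 hP1 hQ0 hQ1 hPQ
  have d2 := dif hp h0 h1 hR hP c1 c2 hP0 hP1 c3
  have d3 := dif hp h0 h1 hR hQ c1 c2 hQ0 hQ1 c4
  unfold Dif at d1 d2 d3
  omega

lemma horiz {a b : ℤ} (hb : 0 < b) (hab : b < a) {t : ℝ} (h1 : t < 1)
    {P Q : ℤ × ℤ} (hP : P ∈ pbd a b t) (hQ : Q ∈ pbd a b t) (gQ : 0 < gg a b Q)
    (e1 : Q.1 = P.1 + a) (e2 : Q.2 = P.2 - b) :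
    P.1 = 0 ∧ (P.2 : ℝ) = b + t * a ∧ 2 * b < P.2 := by
  obtain ⟨x, y⟩ := P
  obtain ⟨x', y'⟩ := Q
  simp only at e1 e2
  subst e1 e2
  rw [mem_pbd] at hP hQ
  simp only [ff, gg] at hP hQ gQ ⊢
  push_cast at hP hQ
  have hb' : (0 : ℝ) < b := by exact_mod_cast hb
  have hab' : (b : ℝ) < a := by exact_mod_cast hab
  have L : (a : ℝ) * x - b * y + b ^ 2 + a * b * t = 0 := by linear_combination (hQ - hP) / 2
  have M : ((a : ℝ) ^ 2 + b ^ 2) * (x * (x + t * b)) = 0 := by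
    linear_combination b ^ 2 * hP + (b * y + a * x) * L
  rcases mul_eq_zero.1 ((mul_eq_zero.1 M).resolve_left (by positivity)) with h | h
  · have hx : x = 0 := by exact_mod_cast h
    refine ⟨hx, mul_left_cancel₀ hb'.ne' (by linear_combination a * h - L), ?_⟩
    subst hx
    nlinarith
  · exfalso
    have hy : (y : ℝ) = b := mul_left_cancel₀ hb'.ne' (by linear_combination a * h - L)
    have hy' : y = b := by exact_mod_cast hy
    have hx : (0 : ℝ) < x + a := by nlinarith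
    have hx' : 0 < x + a := by exact_mod_cast hx
    subst hy'
    nlinarith

lemma diag {a b : ℤ} (hb : 0 < b) (hab : b < a) {t : ℝ} (_h0 : 0 ≤ t) (h1 : t < 1)
    {P Q : ℤ × ℤ} (hP : P ∈ pbd a b t) (hQ : Q ∈ pbd a b t) (gP : 0 < gg a b P)
    (e1 : Q.1 = P.1 + b) (e2 : Q.2 = P.2 + a) :
    P.2 = -P.1 ∧ (2 * P.1 : ℝ) = a - b - t * (a + b) ∧ P.1 < 0 := by
  obtain ⟨x, y⟩ := P
  obtain ⟨x', y'⟩ := Q
  simp only at e1 e2
  subst e1 e2
  rw [mem_pbd] at hP hQ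
  simp only [ff, gg] at hP hQ gP ⊢
  push_cast at hP hQ
  have hb' : (0 : ℝ) < b := by exact_mod_cast hb
  have hab' : (0 : ℝ) < a - b := by exact_mod_cast sub_pos.2 hab
  have L : ((a : ℝ) + b) * (x + y) - (a - b) * (x - y) + (a - b) * (a - b - t * (a + b)) = 0 := by
    linear_combination hQ - hP
  have M : (2 * ((a : ℝ) ^ 2 + b ^ 2)) * ((x + y) * (x + y - t * (a - b))) = 0 := by
    linear_combination 2 * (a - b) ^ 2 * hP + ((a - b) * (x - y) + (a + b) * (x + y)) * L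
  rcases mul_eq_zero.1 ((mul_eq_zero.1 M).resolve_left (by positivity)) with h | h
  · have hx : x + y = 0 := by exact_mod_cast h
    have hy : y = -x := by omega
    refine ⟨hy, mul_left_cancel₀ hab'.ne' (by linear_combination (2 * a) * h - L), ?_⟩
    subst hy
    nlinarith
  · exfalso
    have hy : (x : ℝ) - y = a - b :=
      mul_left_cancel₀ hab'.ne' (by linear_combination (a + b) * h - L)
    have g : (0 : ℝ) < a * y - b * x := by exact_mod_cast gP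
    have hx : (x : ℝ) = (a - b) * (t + 1) / 2 := by linarith
    have hy : (y : ℝ) = (a - b) * (t - 1) / 2 := by linarith
    rw [hx, hy] at g
    have : (a : ℝ) * (t - 1) - b * (t + 1) < 0 := by nlinarith
    nlinarith

/-- horizontal trapezoid configuration -/
def TrapH (n : ℕ) (a b : ℤ) (u v ρ : ℝ) : Prop :=
  (ins u v ρ).ncard + 1 = n ∧ ∃ x y m : ℤ, 2 * b < m ∧ 2 * v = 2 * y + m ∧
    ∀ z, z ∈ bd u v ρ ↔
      z = (x, y) ∨ z = (x + a, y + b) ∨ z = (x, y + m) ∨ z = (x + a, y + m - b)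

/-- diagonal trapezoid configuration -/
def TrapD (n : ℕ) (a b : ℤ) (u v ρ : ℝ) : Prop :=
  (ins u v ρ).ncard + 1 = n ∧ ∃ x y d : ℤ, d < 0 ∧ u - v = x - y + d ∧
    ∀ z, z ∈ bd u v ρ ↔
      z = (x, y) ∨ z = (x + a, y + b) ∨ z = (x + d, y - d) ∨ z = (x + d + b, y + a - d)

lemma not_end {a b : ℤ} {z : ℤ × ℤ} (h : 0 < gg a b z) : z ≠ (0, 0) ∧ z ≠ (a, b) := by
  constructor <;> rintro rfl <;> simp only [gg] at h <;> linarith

lemma double {a b : ℤ} (hb : 0 < b) (hab : b < a) (hp : Prime (a ^ 2 + b ^ 2)) {t : ℝ}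
    (h0 : 0 ≤ t) (h1 : t < 1) {n : ℕ} (hn : (pin a b t).ncard + 1 = n)
    {P Q : ℤ × ℤ} (hP : P ∈ pbd a b t) (hQ : Q ∈ pbd a b t) (gP : 0 < gg a b P)
    (gQ : 0 < gg a b Q) (hPQ : P ≠ Q) :
    (b < t * a ∧ TrapH n a b (pu a b t) (pv a b t) (pr a b t)) ∨
    (a - b < t * (a + b) ∧ TrapD n a b (pu a b t) (pv a b t) (pr a b t)) := by
  wlog h : (Q.1 = P.1 + a ∧ Q.2 = P.2 - b) ∨ (Q.1 = P.1 + b ∧ Q.2 = P.2 + a) generalizing P Q
  · refine this hQ hP gQ gP hPQ.symm ?_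
    have := dif hp h0 h1 hP hQ (not_end gP).1 (not_end gP).2 (not_end gQ).1 (not_end gQ).2 hPQ
    unfold Dif at this
    omega
  have key : ∀ z, z ∈ pbd a b t ↔ z = (0, 0) ∨ z = (a, b) ∨ z = P ∨ z = Q := fun z =>
    ⟨fun hz => third hb hab hp h0 h1 hP hQ hz (not_end gP).1 (not_end gP).2 (not_end gQ).1
      (not_end gQ).2 hPQ, by
      rintro (rfl | rfl | rfl | rfl)
      exacts [zero_mem_pbd _ _ _, beta_mem_pbd _ _ _, hP, hQ]⟩
  rcases h with ⟨e1, e2⟩ | ⟨e1, e2⟩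
  · obtain ⟨c1, c2, c3⟩ := horiz hb hab h1 hP hQ gQ e1 e2
    have c4 : (2 * b : ℝ) < P.2 := by exact_mod_cast c3
    refine Or.inl ⟨by linarith, hn, 0, 0, P.2, c3, by simp only [pv]; push_cast; linarith,
      fun z => (key z).trans ?_⟩
    rw [show P = (0, 0 + P.2) from Prod.ext c1 (by simp),
      show Q = (0 + a, 0 + P.2 - b) from Prod.ext (by simp only; omega) (by simp only; omega)]
    simp
  · obtain ⟨c1, c2, c3⟩ := diag hb hab h0 h1 hP hQ gP e1 e2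
    have c4 : (P.1 : ℝ) < 0 := by exact_mod_cast c3
    refine Or.inr ⟨by linarith, hn, 0, 0, P.1, c3, by simp only [pu, pv]; push_cast; linarith,
      fun z => (key z).trans ?_⟩
    rw [show P = (0 + P.1, 0 - P.1) from Prod.ext (by simp) (by simp only; omega),
      show Q = (0 + P.1 + b, 0 + a - P.1) from
        Prod.ext (by simp only; omega) (by simp only; omega)]
    simp

lemma pin_subset {a b : ℤ} {t : ℝ} (h0 : 0 ≤ t) (h1 : t ≤ 1) :
    pin a b t ⊆ {z | dsq 0 0 z ≤ 2 * (a ^ 2 + b ^ 2)} := by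
  intro z hz
  have := chord_le (le_of_eq (zero_mem_pbd a b t)) (le_of_lt hz)
  simp only [pr, dsq, mem_ofPred_eq] at this ⊢
  push_cast at this
  have h : ((a : ℝ) ^ 2 + b ^ 2) * t ^ 2 ≤ (a ^ 2 + b ^ 2) * 1 :=
    mul_le_mul_of_nonneg_left (by nlinarith) (by positivity)
  nlinarith

/-- the crossing argument -/
lemma cross {a b : ℤ} (hb : 0 < b) (hab : b < a) (hp : Prime (a ^ 2 + b ^ 2)) {s : ℝ}
    (h0 : 0 ≤ s) (h1 : s < 1) {n : ℕ} (hlo : (pin a b 0).ncard ≤ n) (hhi : n < (pin a b s).ncard) :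
    Ex n ∨ ∃ t, t < s ∧ ((b < t * a ∧ TrapH n a b (pu a b t) (pv a b t) (pr a b t)) ∨
      (a - b < t * (a + b) ∧ TrapD n a b (pu a b t) (pv a b t) (pr a b t))) := by
  have fin : ∀ t, (pin a b t).Finite := fun t => ins_finite _ _ _
  have hopen : IsOpen {t : ℝ | n < (pin a b t).ncard} := by
    rw [isOpen_iff_mem_nhds]
    intro t ht
    have : ∀ᶠ r in 𝓝 t, ∀ z ∈ pin a b t, (ff a b z : ℝ) < r * gg a b z :=
      (eventually_all_finite (fin t)).2 fun z hz =>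
        ContinuousAt.eventually_lt (f := fun _ => (ff a b z : ℝ)) (g := fun r => r * gg a b z)
          (by fun_prop) (by fun_prop) (mem_pin.1 hz)
    filter_upwards [this] with r hr
    exact lt_of_lt_of_le ht (Set.ncard_le_ncard (fun z hz => mem_pin.2 (hr z hz)) (fin r))
  obtain ⟨t, ⟨⟨t0, ts⟩, ht⟩, hmax⟩ := (isCompact_Icc.inter_right hopen.isClosed_compl :
    IsCompact (Icc 0 s ∩ {t : ℝ | n < (pin a b t).ncard}ᶜ)).exists_isGreatest
      ⟨0, ⟨le_rfl, h0⟩, not_lt.2 hlo⟩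
  have ht' : (pin a b t).ncard ≤ n := not_lt.1 ht
  have tlt : t < s := lt_of_le_of_ne ts (by rintro rfl; omega)
  have t1 : t < 1 := tlt.trans h1
  have ev : ∀ᶠ r in 𝓝 t, ∀ z ∈ {z | dsq 0 0 z ≤ 2 * (a ^ 2 + b ^ 2)},
      t * gg a b z < (ff a b z : ℝ) → r * gg a b z < (ff a b z : ℝ) :=
    (eventually_all_finite (finite_le _ _ _)).2 fun z _ => by
      by_cases hz : t * gg a b z < (ff a b z : ℝ)
      · filter_upwards [ContinuousAt.eventually_lt (g := fun _ : ℝ => (ff a b z : ℝ))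
          (f := fun r : ℝ => r * gg a b z) (by fun_prop) (by fun_prop) hz] with r hr _ using hr
      · exact Eventually.of_forall fun r h => absurd h hz
  obtain ⟨r, hr, hr1, hr2⟩ := ((ev.filter_mono nhdsWithin_le_nhds).and
    (Ioo_mem_nhdsGT tlt)).exists
  have hrn : n < (pin a b r).ncard := by
    by_contra hc
    exact absurd (hmax ⟨⟨t0.trans hr1.le, hr2.le⟩, hc⟩) (not_le.2 hr1)
  set E : Set (ℤ × ℤ) := {z | z ∈ pbd a b t ∧ 0 < gg a b z} with hE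
  have hEf : E.Finite := (finite_le _ _ _).subset fun z hz => le_of_eq hz.1
  have hsub : pin a b r ⊆ pin a b t ∪ E := by
    intro z hz
    have hz' := mem_pin.1 hz
    rcases lt_trichotomy (ff a b z : ℝ) (t * gg a b z) with h | h | h
    · exact Or.inl (mem_pin.2 h)
    · refine Or.inr ⟨mem_pbd.2 h, ?_⟩
      have : (0 : ℝ) < gg a b z := by nlinarith
      exact_mod_cast this
    · exact absurd (hr z (pin_subset (t0.trans hr1.le) (hr2.trans h1).le hz) h) (not_lt.2 hz'.le)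
  have hc := (Set.ncard_le_ncard hsub ((fin t).union hEf)).trans (Set.ncard_union_le _ _)
  rcases ht'.eq_or_lt with h | h
  · obtain ⟨P, hP, gP⟩ := Set.nonempty_of_ncard_ne_zero (show E.ncard ≠ 0 by omega)
    refine Or.inl ⟨_, _, _, h, _, zero_mem_pbd a b t, _, beta_mem_pbd a b t, P, hP, ?_,
      (not_end gP).1.symm, (not_end gP).2.symm⟩
    intro h
    have := congrArg Prod.snd h
    simp only at this
    omega
  · obtain ⟨P, ⟨hP, gP⟩, Q, ⟨hQ, gQ⟩, hPQ⟩ := (Set.one_lt_ncard hEf).1 (by omega)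
    have hE2 : E ⊆ {P, Q} := by
      rintro R ⟨hR, gR⟩
      have := third hb hab hp t0 t1 hP hQ hR (not_end gP).1 (not_end gP).2 (not_end gQ).1
        (not_end gQ).2 hPQ
      have := not_end gR
      simp only [mem_insert_iff, mem_singleton_iff]
      tauto
    have := Set.ncard_le_ncard hE2 (toFinite _)
    rw [Set.ncard_pair hPQ] at this
    exact Or.inr ⟨t, tlt, double hb hab hp t0 t1 (by omega) hP hQ gP gQ hPQ⟩

/-- primes with a good angle -/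
lemma good {a b : ℤ} (hb : 0 < b) (hab : b < a) (hp : Prime (a ^ 2 + b ^ 2)) {s : ℝ}
    (h0 : 0 ≤ s) (h1 : s * a ≤ b) (h2 : s * (a + b) ≤ a - b) {n : ℕ}
    (hlo : (pin a b 0).ncard ≤ n) (hhi : n < (pin a b s).ncard) : Ex n := by
  have hb' : (0 : ℝ) < b := by exact_mod_cast hb
  have hab' : (b : ℝ) < a := by exact_mod_cast hab
  rcases cross hb hab hp h0 (by nlinarith) hlo hhi with h | ⟨t, ht, ⟨h, -⟩ | ⟨h, -⟩⟩
  · exact h
  · nlinarith
  · nlinarith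

end Pool.Agent.MP_e47a12_co

end MrgPart1

-- ======== part 2: formerly Pool.Agent.MP_e47a12_co.Potential
section MrgPart2

/-! Sets of `k` nearest lattice points move monotonically with the centre; hence few primes give
a trapezoid configuration at a fixed level. -/

namespace Pool.Agent.MP_e47a12_co

open Set

/-- `A` is a set of `k` nearest lattice points to `(u, v)` -/
def IsNear (k : ℕ) (u v : ℝ) (A : Finset (ℤ × ℤ)) : Prop :=
  A.card = k ∧ ∃ ρ, (∀ z ∈ A, dsq u v z ≤ ρ) ∧ ∀ z ∉ A, ρ ≤ dsq u v z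

lemma IsNear.sum_le {k : ℕ} {u v : ℝ} {A B : Finset (ℤ × ℤ)} (h : IsNear k u v A)
    (hB : B.card = k) : ∑ z ∈ A, dsq u v z ≤ ∑ z ∈ B, dsq u v z := by
  obtain ⟨hA, ρ, h1, h2⟩ := h
  rw [← Finset.sum_inter_add_sum_sdiff A B, ← Finset.sum_inter_add_sum_sdiff B A,
    Finset.inter_comm B A]
  have c : (A \ B).card = (B \ A).card := Finset.card_sdiff_comm (hA.trans hB.symm)
  have e1 := Finset.sum_le_card_nsmul (A \ B) (dsq u v) ρ fun z hz => h1 z (Finset.mem_sdiff.1 hz).1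
  have e2 := Finset.card_nsmul_le_sum (B \ A) (dsq u v) ρ fun z hz => h2 z (Finset.mem_sdiff.1 hz).2
  rw [c] at e1
  linarith

/-- the moment of a finite set in direction `w` -/
def mom (w : ℤ × ℤ) (A : Finset (ℤ × ℤ)) : ℝ := ∑ z ∈ A, ((w.1 : ℝ) * z.1 + w.2 * z.2)

lemma mom_mono {k : ℕ} {w : ℤ × ℤ} {c d s s' : ℝ} {A A' : Finset (ℤ × ℤ)}
    (h : IsNear k (c + s * w.1) (d + s * w.2) A) (h' : IsNear k (c + s' * w.1) (d + s' * w.2) A')
    (hs : s < s') : mom w A ≤ mom w A' := by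
  have e1 := h.sum_le h'.1
  have e2 := h'.sum_le h.1
  have key : ∀ B : Finset (ℤ × ℤ), B.card = k →
      ∑ z ∈ B, dsq (c + s * w.1) (d + s * w.2) z - ∑ z ∈ B, dsq (c + s' * w.1) (d + s' * w.2) z =
      2 * (s' - s) * mom w B + k * ((c + s * w.1) ^ 2 + (d + s * w.2) ^ 2 -
        (c + s' * w.1) ^ 2 - (d + s' * w.2) ^ 2) := by
    intro B hB
    rw [← Finset.sum_sub_distrib, mom, Finset.mul_sum, ← hB, ← nsmul_eq_mul, ← Finset.sum_const,
      ← Finset.sum_add_distrib]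
    refine Finset.sum_congr rfl fun z _ => ?_
    simp only [dsq]; ring
  have k1 := key A h.1
  have k2 := key A' h'.1
  have : 2 * (s' - s) * mom w A ≤ 2 * (s' - s) * mom w A' := by linarith
  exact le_of_mul_le_mul_left this (by linarith)

lemma IsNear.shift {k : ℕ} {u v : ℝ} {A : Finset (ℤ × ℤ)} (h : IsNear k u v A) (w : ℤ × ℤ) :
    IsNear k (u + w.1) (v + w.2) (A.map (addRightEmbedding w)) := by
  obtain ⟨hA, ρ, h1, h2⟩ := h
  refine ⟨by simpa using hA, ρ, ?_, fun z hz => ?_⟩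
  · simp only [Finset.mem_map, addRightEmbedding_apply]
    rintro _ ⟨z, hz, rfl⟩
    rw [dsq_shift]; exact h1 z hz
  · have := dsq_shift u v w (z - w)
    rw [sub_add_cancel] at this
    rw [this]
    exact h2 _ fun hc => hz (Finset.mem_map.2 ⟨_, hc, by simp⟩)

lemma mom_shift (w : ℤ × ℤ) (A : Finset (ℤ × ℤ)) :
    mom w (A.map (addRightEmbedding w)) = mom w A + A.card * ((w.1 : ℝ) ^ 2 + w.2 ^ 2) := by
  rw [mom, Finset.sum_map, mom, ← nsmul_eq_mul, ← Finset.sum_const, ← Finset.sum_add_distrib]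
  refine Finset.sum_congr rfl fun z _ => ?_
  simp only [addRightEmbedding_apply, Prod.fst_add, Prod.snd_add]; push_cast; ring

lemma sum_gaps {ι : Type} [DecidableEq ι] (u L R : ι → ℝ) (m : ℝ) (S : Finset ι) :
    InjOn u S → (∀ i ∈ S, ∀ j ∈ S, u i < u j → R i ≤ L j) → (∀ i ∈ S, m ≤ L i) →
    ∀ M, m ≤ M → (∀ i ∈ S, R i ≤ M) → ∑ i ∈ S, (R i - L i) ≤ M - m := by
  induction S using Finset.induction_on_max_value u with
  | empty => intro _ _ _ M hM _; simpa using hM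
  | insert j S hj hmax ih =>
    intro hinj hord hm M hmM hM
    rw [Finset.sum_insert hj]
    have := ih (hinj.mono (by simp)) (fun a ha b hb => hord a (by simp [ha]) b (by simp [hb]))
      (fun a ha => hm a (by simp [ha])) (L j) (hm j (by simp)) fun a ha =>
        hord a (by simp [ha]) j (by simp) (lt_of_le_of_ne (hmax a ha) fun h => hj (by
          rwa [← hinj (by simp [ha]) (by simp) h]))
    linarith [hM j (by simp)]

lemma count_le (k : ℕ) (w : ℤ × ℤ) (c d γ : ℝ) (_hγ : 0 ≤ γ) (S : Finset ℕ) (T : ℕ → ℝ → Prop)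
    (hT : ∀ p ∈ S, ∃ s, 0 ≤ s ∧ s < 1 ∧ T p s) (hinj : ∀ p q s, T p s → T q s → p = q)
    (hnear : ∀ p ∈ S, ∀ s, T p s → ∃ A A', IsNear k (c + s * w.1) (d + s * w.2) A ∧
      IsNear k (c + s * w.1) (d + s * w.2) A' ∧ mom w A + γ ≤ mom w A') :
    S.card * γ ≤ k * ((w.1 : ℝ) ^ 2 + w.2 ^ 2) := by
  rcases S.eq_empty_or_nonempty with rfl | hne
  · simp; positivity
  choose! u u0 u1 hu using hT
  choose! A A' hA hA' hg using fun p hp => hnear p hp (u p) (hu p hp)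
  obtain ⟨i, hi, hmin⟩ := S.exists_min_image u hne
  have inj : InjOn u S := fun p hp q hq h => hinj p q (u p) (hu p hp) (h ▸ hu q hq)
  have hs := (hA i hi).shift w
  rw [show c + u i * w.1 + w.1 = c + (u i + 1) * w.1 by ring,
    show d + u i * w.2 + w.2 = d + (u i + 1) * w.2 by ring] at hs
  have := sum_gaps u (fun p => mom w (A p)) (fun p => mom w (A' p)) (mom w (A i)) S inj
    (fun p hp q hq h => mom_mono (hA' p hp) (hA q hq) h)
    (fun p hp => by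
      rcases (hmin p hp).eq_or_lt with h | h
      · rw [inj hi hp h]
      · exact mom_mono (hA i hi) (hA p hp) h)
    (mom w ((A i).map (addRightEmbedding w)))
    (mom_mono (hA i hi) hs (by linarith))
    (fun p hp => mom_mono (hA' p hp) hs (by linarith [u0 i hi, u1 p hp]))
  rw [mom_shift, (hA i hi).1] at this
  have h2 := Finset.card_nsmul_le_sum S (fun p => mom w (A' p) - mom w (A p)) γ
    fun p hp => by linarith [hg p hp]
  rw [nsmul_eq_mul] at h2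
  linarith

lemma near_pair {u v ρ : ℝ} {P Q : ℤ × ℤ} (hP : P ∈ bd u v ρ) (hQ : Q ∈ bd u v ρ) (h : P ≠ Q)
    (w : ℤ × ℤ) : ∃ A, IsNear ((ins u v ρ).ncard + 2) u v A ∧
      mom w A = mom w (ins_finite u v ρ).toFinset +
        ((w.1 : ℝ) * P.1 + w.2 * P.2) + ((w.1 : ℝ) * Q.1 + w.2 * Q.2) := by
  have hP' : dsq u v P = ρ := hP
  have hQ' : dsq u v Q = ρ := hQ
  have n1 : Q ∉ (ins_finite u v ρ).toFinset := by simp [ins, hQ']
  have n2 : P ∉ insert Q (ins_finite u v ρ).toFinset := by simp [ins, hP', h]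
  refine ⟨insert P (insert Q (ins_finite u v ρ).toFinset), ⟨?_, ρ, ?_, ?_⟩, ?_⟩
  · rw [Finset.card_insert_of_notMem n2, Finset.card_insert_of_notMem n1,
      Set.ncard_eq_toFinset_card _ (ins_finite u v ρ)]
  · simp only [Finset.mem_insert, Finite.mem_toFinset]
    rintro z (rfl | rfl | hz)
    exacts [hP'.le, hQ'.le, le_of_lt hz]
  · simp only [Finset.mem_insert, Finite.mem_toFinset, not_or]
    exact fun z hz => not_lt.1 hz.2.2
  · simp only [mom]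
    rw [Finset.sum_insert n2, Finset.sum_insert n1]; ring

lemma radius_eq {u v ρ ρ' : ℝ} {P Q : ℤ × ℤ} (hP : P ∈ bd u v ρ) (hQ : Q ∈ bd u v ρ')
    (h : (ins u v ρ).ncard = (ins u v ρ').ncard) : ρ = ρ' := by
  wlog hl : ρ < ρ' generalizing ρ ρ' P Q
  · rcases (not_lt.1 hl).eq_or_lt with h1 | h1
    · exact h1.symm
    · exact (this hQ hP h.symm h1).symm
  have hP' : dsq u v P = ρ := hP
  have : ins u v ρ ⊂ ins u v ρ' := ⟨fun z (hz : _ < _) => hz.trans hl, fun hc =>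
    absurd (hc (show P ∈ ins u v ρ' from hP'.trans_lt hl)) (by simp [ins, hP'])⟩
  exact absurd (Set.ncard_lt_ncard this (ins_finite _ _ _)) (by omega)

lemma TrapH.shift {n : ℕ} {a b : ℤ} {u v ρ : ℝ} (h : TrapH n a b u v ρ) (k : ℤ × ℤ) :
    TrapH n a b (u + k.1) (v + k.2) ρ := by
  obtain ⟨h1, x, y, m, h2, h3, h4⟩ := h
  refine ⟨by rwa [ncard_shift], x + k.1, y + k.2, m, h2, by push_cast; linarith, fun z => ?_⟩
  rw [mem_bd_shift, h4]
  simp only [Prod.ext_iff, Prod.fst_sub, Prod.snd_sub]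
  omega

lemma TrapD.shift {n : ℕ} {a b : ℤ} {u v ρ : ℝ} (h : TrapD n a b u v ρ) (k : ℤ × ℤ) :
    TrapD n a b (u + k.1) (v + k.2) ρ := by
  obtain ⟨h1, x, y, m, h2, h3, h4⟩ := h
  refine ⟨by rwa [ncard_shift], x + k.1, y + k.2, m, h2, by push_cast; linarith, fun z => ?_⟩
  rw [mem_bd_shift, h4]
  simp only [Prod.ext_iff, Prod.fst_sub, Prod.snd_sub]
  omega

lemma TrapH.unique {n : ℕ} {a b a' b' : ℤ} {u v ρ ρ' : ℝ} (h : TrapH n a b u v ρ)
    (h' : TrapH n a' b' u v ρ') (hb : 0 < b) (hab : b < a) (hb' : 0 < b') (hab' : b' < a') :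
    a = a' ∧ b = b' := by
  obtain ⟨h1, x, y, m, h2, h3, h4⟩ := h
  obtain ⟨h1', x', y', m', h2', h3', h4'⟩ := h'
  obtain rfl := radius_eq ((h4 _).2 (Or.inl rfl)) ((h4' _).2 (Or.inl rfl)) (by omega)
  have e : 2 * y + m = 2 * y' + m' := by exact_mod_cast h3.symm.trans h3'
  have e1 := (h4 _).1 ((h4' _).2 (Or.inl rfl))
  have e2 := (h4' _).1 ((h4 _).2 (Or.inl rfl))
  have e3 := (h4 _).1 ((h4' _).2 (Or.inr (Or.inl rfl)))
  simp only [Prod.mk.injEq] at e1 e2 e3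
  omega

lemma TrapD.unique {n : ℕ} {a b a' b' : ℤ} {u v ρ ρ' : ℝ} (h : TrapD n a b u v ρ)
    (h' : TrapD n a' b' u v ρ') (hb : 0 < b) (hab : b < a) (hb' : 0 < b') (hab' : b' < a') :
    a = a' ∧ b = b' := by
  obtain ⟨h1, x, y, m, h2, h3, h4⟩ := h
  obtain ⟨h1', x', y', m', h2', h3', h4'⟩ := h'
  obtain rfl := radius_eq ((h4 _).2 (Or.inl rfl)) ((h4' _).2 (Or.inl rfl)) (by omega)
  have e : x - y + m = x' - y' + m' := by exact_mod_cast h3.symm.trans h3'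
  have e1 := (h4 _).1 ((h4' _).2 (Or.inl rfl))
  have e2 := (h4' _).1 ((h4 _).2 (Or.inl rfl))
  have e3 := (h4 _).1 ((h4' _).2 (Or.inr (Or.inl rfl)))
  simp only [Prod.mk.injEq] at e1 e2 e3
  omega

/-- the prime `p` gives a horizontal trapezoid with centre `(s, h)` -/
def BadH (n : ℕ) (h : ℝ) (p : ℕ) (s : ℝ) : Prop :=
  ∃ a b : ℤ, ∃ ρ, (p : ℤ) = a ^ 2 + b ^ 2 ∧ 0 < b ∧ b < a ∧ TrapH n a b s h ρ

/-- the prime `p` gives a diagonal trapezoid with centre `(s, s)` -/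
def BadD (n : ℕ) (p : ℕ) (s : ℝ) : Prop :=
  ∃ a b : ℤ, ∃ ρ, (p : ℤ) = a ^ 2 + b ^ 2 ∧ 0 < b ∧ b < a ∧ TrapD n a b s s ρ

lemma countH (n : ℕ) (h y : ℝ) (hy : 0 ≤ y) (S : Finset ℕ) (hS : ∀ p ∈ S, y ^ 2 ≤ 2 * p)
    (hT : ∀ p ∈ S, ∃ s, 0 ≤ s ∧ s < 1 ∧ BadH n h p s) : S.card * y ≤ n + 1 := by
  have := count_le (n + 1) (1, 0) 0 h y hy S (BadH n h) hT ?_ ?_
  · simpa using this
  · rintro p q s ⟨a, b, ρ, e, c1, c2, c3⟩ ⟨a', b', ρ', e', c1', c2', c3'⟩
    obtain ⟨rfl, rfl⟩ := c3.unique c3' c1 c2 c1' c2'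
    exact_mod_cast e.trans e'.symm
  · rintro p hp s ⟨a, b, ρ, e, c1, c2, c3, x, z, m, c4, -, c5⟩
    obtain ⟨A, hA, eA⟩ := near_pair ((c5 _).2 (Or.inl rfl))
      ((c5 _).2 (Or.inr (Or.inr (Or.inl rfl)))) (by simp; omega) (1, 0)
    obtain ⟨A', hA', eA'⟩ := near_pair ((c5 _).2 (Or.inr (Or.inl rfl)))
      ((c5 _).2 (Or.inr (Or.inr (Or.inr rfl)))) (by simp; omega) (1, 0)
    rw [show (ins s h ρ).ncard + 2 = n + 1 by omega] at hA hA'
    refine ⟨A, A', by simpa using hA, by simpa using hA', ?_⟩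
    rw [eA, eA']
    have e' : (p : ℝ) = a ^ 2 + b ^ 2 := by exact_mod_cast e
    have d1 : (0 : ℝ) < b := by exact_mod_cast c1
    have d2 : (b : ℝ) < a := by exact_mod_cast c2
    have : y ≤ 2 * a := (abs_le_of_sq_le_sq' (by nlinarith [hS p hp]) (by linarith)).2
    push_cast
    linarith

lemma countD (n : ℕ) (y : ℝ) (hy : 0 ≤ y) (S : Finset ℕ) (hS : ∀ p ∈ S, y ^ 2 ≤ p)
    (hT : ∀ p ∈ S, ∃ s, 0 ≤ s ∧ s < 1 ∧ BadD n p s) : S.card * y ≤ n + 1 := by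
  have := count_le (n + 1) (1, 1) 0 0 (2 * y) (by linarith) S (BadD n) hT ?_ ?_
  · push_cast at this; linarith
  · rintro p q s ⟨a, b, ρ, e, c1, c2, c3⟩ ⟨a', b', ρ', e', c1', c2', c3'⟩
    obtain ⟨rfl, rfl⟩ := c3.unique c3' c1 c2 c1' c2'
    exact_mod_cast e.trans e'.symm
  · rintro p hp s ⟨a, b, ρ, e, c1, c2, c3, x, z, m, c4, -, c5⟩
    obtain ⟨A, hA, eA⟩ := near_pair ((c5 _).2 (Or.inl rfl))
      ((c5 _).2 (Or.inr (Or.inr (Or.inl rfl)))) (by simp; omega) (1, 1)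
    obtain ⟨A', hA', eA'⟩ := near_pair ((c5 _).2 (Or.inr (Or.inl rfl)))
      ((c5 _).2 (Or.inr (Or.inr (Or.inr rfl)))) (by simp; omega) (1, 1)
    rw [show (ins s s ρ).ncard + 2 = n + 1 by omega] at hA hA'
    refine ⟨A, A', by simpa using hA, by simpa using hA', ?_⟩
    rw [eA, eA']
    have e' : (p : ℝ) = a ^ 2 + b ^ 2 := by exact_mod_cast e
    have d1 : (0 : ℝ) < b := by exact_mod_cast c1
    have d2 : (b : ℝ) < a := by exact_mod_cast c2
    have : y ≤ a + b := (abs_le_of_sq_le_sq' (by nlinarith [hS p hp]) (by linarith)).2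
    push_cast
    linarith

lemma TrapH.normal {n : ℕ} {a b : ℤ} {u v ρ : ℝ} (h : TrapH n a b u v ρ) :
    ∃ s, 0 ≤ s ∧ s < 1 ∧ (TrapH n a b s 0 ρ ∨ TrapH n a b s (1 / 2) ρ) := by
  refine ⟨Int.fract u, Int.fract_nonneg u, Int.fract_lt_one u, ?_⟩
  obtain ⟨x, y, m, -, h3, -⟩ := h.2
  have := h.shift (-⌊u⌋, -(y + m / 2))
  rw [show u + ((-⌊u⌋, -(y + m / 2)) : ℤ × ℤ).1 = Int.fract u by simp [Int.fract, sub_eq_add_neg]]
    at this
  rcases Int.emod_two_eq_zero_or_one m with hm | hm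
  · left
    have e : (m : ℝ) = 2 * (m / 2 : ℤ) := by exact_mod_cast (by omega : m = 2 * (m / 2))
    convert this using 1
    push_cast; linarith
  · right
    have e : (m : ℝ) = 2 * (m / 2 : ℤ) + 1 := by exact_mod_cast (by omega : m = 2 * (m / 2) + 1)
    convert this using 1
    push_cast; linarith

lemma TrapD.normal {n : ℕ} {a b : ℤ} {u v ρ : ℝ} (h : TrapD n a b u v ρ) :
    ∃ s, 0 ≤ s ∧ s < 1 ∧ TrapD n a b s s ρ := by
  refine ⟨Int.fract v, Int.fract_nonneg v, Int.fract_lt_one v, ?_⟩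
  obtain ⟨x, y, d, -, h3, -⟩ := h.2
  have := h.shift (-⌊v⌋ - (x - y + d), -⌊v⌋)
  convert this using 1
  · simp only [Int.fract]; push_cast; linarith
  · simp only [Int.fract]; push_cast; linarith

end Pool.Agent.MP_e47a12_co

end MrgPart2

-- ======== part 3: formerly Pool.Agent.MP_e47a12_co.Large
section MrgPart3

/-! Existence of `n`-enclosing lattice circles for large `n`. -/

namespace Pool.Agent.MP_e47a12_co

open Set

lemma two_squares {p : ℕ} (hp : p.Prime) (h4 : p % 4 = 1) :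
    ∃ a b : ℤ, (p : ℤ) = a ^ 2 + b ^ 2 ∧ 0 < b ∧ b < a := by
  have := Fact.mk hp
  obtain ⟨a, b, h⟩ := Nat.Prime.sq_add_sq (p := p) (by omega)
  wlog hab : b ≤ a generalizing a b
  · exact this b a (by omega) (by omega)
  refine ⟨a, b, by exact_mod_cast h.symm, ?_, ?_⟩
  · rcases Nat.eq_zero_or_pos b with rfl | hb
    · exact absurd hp (by rw [← h]; simpa using Nat.Prime.not_prime_pow (le_refl 2))
    · exact_mod_cast hb
  · rcases hab.eq_or_lt with rfl | hb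
    · omega
    · exact_mod_cast hb

theorem ex_large {n : ℕ} (hn : 31000000 ≤ n) : Ex n := by
  classical
  by_contra hE
  set x := 13 * n / 20 + 1 with hx
  have hS := many_primes_one_mod_four x (by omega)
  set S := (Finset.Ioc x (19 * x / 10)).filter (fun p => p.Prime ∧ p % 4 = 1) with hSd
  have hn' : (31000000 : ℝ) ≤ n := by exact_mod_cast hn
  have hx1 : (13 * n : ℝ) ≤ 20 * x := by exact_mod_cast (by omega : 13 * n ≤ 20 * x)
  have hx2 : (20 * x : ℝ) ≤ 13 * n + 20 := by exact_mod_cast (by omega : 20 * x ≤ 13 * n + 20)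
  have hm : (5000 : ℝ) ≤ √n := Real.le_sqrt_of_sq_le (by linarith)
  have hm2 : √(n : ℝ) ^ 2 = n := Real.sq_sqrt (by positivity)
  have hxp : ∀ p ∈ S, (x : ℝ) ≤ p := fun p hp => by
    exact_mod_cast (Finset.mem_Ioc.1 (Finset.mem_filter.1 hp).1).1.le
  have key : ∀ p ∈ S, (∃ s, 0 ≤ s ∧ s < 1 ∧ BadH n 0 p s) ∨
      (∃ s, 0 ≤ s ∧ s < 1 ∧ BadH n (1 / 2) p s) ∨ ∃ s, 0 ≤ s ∧ s < 1 ∧ BadD n p s := by
    intro p hp
    have h1 := hxp p hp
    obtain ⟨hI, hpr, h4⟩ := Finset.mem_filter.1 hp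
    have h2 : (10 * p : ℝ) ≤ 19 * x := by
      exact_mod_cast (by have := (Finset.mem_Ioc.1 hI).2; omega : 10 * p ≤ 19 * x)
    obtain ⟨a, b, e, hb, hab⟩ := two_squares hpr h4
    have e' : (p : ℝ) = a ^ 2 + b ^ 2 := by exact_mod_cast e
    have lo : (pin a b 0).ncard ≤ n := by
      have := gauss_upper (pu a b 0) (pv a b 0) (pr a b 0) (0.5557 * √n) (by positivity)
        (by simp only [pr]; rw [← e', mul_pow, hm2]; linarith)
      have h3 : (0.5557 * √n + 0.7072) ^ 2 ≤ (0.5559 * √(n : ℝ)) ^ 2 := by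
        gcongr; linarith
      rw [mul_pow, hm2] at h3
      exact_mod_cast (by unfold pin; linarith : ((pin a b 0).ncard : ℝ) ≤ n)
    have hi : n < (pin a b 0.99).ncard := by
      have h3 : (0.5668 * √n + 0.7072) ^ 2 ≤ (0.567 * √(n : ℝ)) ^ 2 := by
        gcongr; linarith
      have := gauss_lower (pu a b 0.99) (pv a b 0.99) (pr a b 0.99) (0.5668 * √n) (by positivity)
        (h3.trans (by simp only [pr]; rw [← e', mul_pow, hm2]; linarith))
      rw [mul_pow, hm2] at this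
      exact_mod_cast (by unfold pin; linarith : (n : ℝ) < (pin a b 0.99).ncard)
    rcases cross hb hab (e ▸ Nat.prime_iff_prime_int.1 hpr) (by norm_num) (by norm_num) lo hi with
      h | ⟨t, -, ⟨-, h⟩ | ⟨-, h⟩⟩
    · exact absurd h hE
    · obtain ⟨s, s0, s1, h | h⟩ := h.normal
      · exact Or.inl ⟨s, s0, s1, a, b, _, e, hb, hab, h⟩
      · exact Or.inr (Or.inl ⟨s, s0, s1, a, b, _, e, hb, hab, h⟩)
    · obtain ⟨s, s0, s1, h⟩ := h.normal
      exact Or.inr (Or.inr ⟨s, s0, s1, a, b, _, e, hb, hab, h⟩)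
  have hy : √(x : ℝ) ^ 2 = x := Real.sq_sqrt (by positivity)
  have hy0 : 0 < √(x : ℝ) := Real.sqrt_pos.2 (by linarith)
  have cH : ∀ h : ℝ, ((S.filter fun p => ∃ s, 0 ≤ s ∧ s < 1 ∧ BadH n h p s).card : ℝ) *
      (1.414 * √x) ≤ n + 1 := fun h =>
    countH n h _ (by positivity) _ (fun p hp => by
      rw [mul_pow, hy]; linarith [hxp p (Finset.mem_filter.1 hp).1])
      fun p hp => (Finset.mem_filter.1 hp).2
  have cD : ((S.filter fun p => ∃ s, 0 ≤ s ∧ s < 1 ∧ BadD n p s).card : ℝ) * √x ≤ n + 1 :=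
    countD n _ (by positivity) _ (fun p hp => by
      rw [hy]; linarith [hxp p (Finset.mem_filter.1 hp).1])
      fun p hp => (Finset.mem_filter.1 hp).2
  have hsub : S ⊆ (S.filter fun p => ∃ s, 0 ≤ s ∧ s < 1 ∧ BadH n 0 p s) ∪
      ((S.filter fun p => ∃ s, 0 ≤ s ∧ s < 1 ∧ BadH n (1 / 2) p s) ∪
      (S.filter fun p => ∃ s, 0 ≤ s ∧ s < 1 ∧ BadD n p s)) := fun p hp => by
    simp only [Finset.mem_union, Finset.mem_filter]
    exact (key p hp).imp (fun h => ⟨hp, h⟩) (Or.imp (fun h => ⟨hp, h⟩) fun h => ⟨hp, h⟩)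
  have hc := (Finset.card_le_card hsub).trans ((Finset.card_union_le _ _).trans
    (Nat.add_le_add_left (Finset.card_union_le _ _) _))
  have hc' := mul_le_mul_of_nonneg_right (Nat.cast_le (α := ℝ) |>.2 hc) hy0.le
  push_cast at hc'
  have h1 := mul_lt_mul_of_pos_right hS hy0
  have := cH 0
  have := cH (1 / 2)
  nlinarith

end Pool.Agent.MP_e47a12_co

end MrgPart3

-- ======== part 4: formerly Pool.Agent.MP_e47a12_co.Cert
section MrgPart4

/-! Finite certificates for the existence of `n`-enclosing lattice circles. -/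

namespace Pool.Agent.MP_e47a12_co

open Set

/-- number of points of a `W × W` box inside the circle `q (x² + y²) = α x + β y` -/
def cntS (q α β x0 y0 : ℤ) (W : ℕ) : ℕ :=
  ∑ j ∈ Finset.range W, ∑ i ∈ Finset.range W,
    if q * ((x0 + i) * (x0 + i) + (y0 + j) * (y0 + j)) < α * (x0 + i) + β * (y0 + j) then 1 else 0

def dN (u L : ℕ) : ℕ := Nat.pow (Nat.add (Nat.sub u L) (Nat.sub L u)) 2

lemma dN_cast (u L : ℕ) : (dN u L : ℤ) = ((u : ℤ) - L) ^ 2 := by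
  show (((u - L + (L - u)) ^ 2 : ℕ) : ℤ) = _
  rcases le_total u L with h | h
  · rw [Nat.sub_eq_zero_of_le h, zero_add]; push_cast [h]; ring
  · rw [Nat.sub_eq_zero_of_le h, add_zero]; push_cast [h]; ring

def rowN (Q L c W : ℕ) : ℕ :=
  Nat.rec 0 (fun i acc => cond (Nat.blt (dN (Nat.mul Q (Nat.succ i)) L) c) (Nat.succ acc) acc) W

def cntN (Q L M D W H : ℕ) : ℕ :=
  Nat.rec 0 (fun j acc => Nat.add (rowN Q L (Nat.sub D (dN (Nat.mul Q (Nat.succ j)) M)) W) acc) H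

lemma rowN_eq (Q L c W : ℕ) :
    rowN Q L c W = ∑ i ∈ Finset.range W, if dN (Q * (i + 1)) L < c then 1 else 0 := by
  induction W with
  | zero => rfl
  | succ W ih =>
    rw [Finset.sum_range_succ, ← ih]
    show cond (Nat.blt (dN (Q * (W + 1)) L) c) (rowN Q L c W + 1) (rowN Q L c W) = _
    by_cases h : dN (Q * (W + 1)) L < c
    · rw [if_pos h, Nat.blt_eq.mpr h]; rfl
    · rw [if_neg h, Bool.eq_false_iff.2 (mt Nat.blt_eq.mp h)]; rfl

lemma cntN_eq (Q L M D W H : ℕ) : cntN Q L M D W H =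
    ∑ j ∈ Finset.range H, rowN Q L (D - dN (Q * (j + 1)) M) W := by
  induction H with
  | zero => rfl
  | succ H ih => rw [Finset.sum_range_succ, ← ih]; exact Nat.add_comm _ _

/-- the same number, computed with natural numbers -/
def cnt (q α β x0 y0 : ℤ) (W : ℕ) : ℕ :=
  cntN (2 * q).toNat (α - 2 * q * (x0 - 1)).toNat (β - 2 * q * (y0 - 1)).toNat
    (α ^ 2 + β ^ 2).toNat W W

lemma cnt_eq {q α β x0 y0 : ℤ} (W : ℕ) (hq : 0 < q) (h1 : 0 ≤ α - 2 * q * (x0 - 1))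
    (h2 : 0 ≤ β - 2 * q * (y0 - 1)) : cnt q α β x0 y0 W = cntS q α β x0 y0 W := by
  rw [cnt, cntN_eq, cntS]
  refine Finset.sum_congr rfl fun j _ => ?_
  rw [rowN_eq]
  refine Finset.sum_congr rfl fun i _ => if_congr ?_ rfl rfl
  rw [Nat.lt_sub_iff_add_lt, ← Nat.cast_lt (α := ℤ), Nat.cast_add, dN_cast, dN_cast]
  push_cast
  rw [Int.toNat_of_nonneg h1, Int.toNat_of_nonneg h2, Int.toNat_of_nonneg (by positivity),
    Int.toNat_of_nonneg (by positivity), ← sub_neg, ← sub_neg (a := q * _)]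
  rw [show (2 * q * (i + 1) - (α - 2 * q * (x0 - 1))) ^ 2 +
      (2 * q * (j + 1) - (β - 2 * q * (y0 - 1))) ^ 2 - (α ^ 2 + β ^ 2) =
      4 * q * (q * ((x0 + i) * (x0 + i) + (y0 + j) * (y0 + j)) -
        (α * (x0 + i) + β * (y0 + j))) by ring]
  exact ⟨fun h => neg_of_mul_neg_right h (by positivity), mul_neg_of_pos_of_neg (by positivity)⟩

/-- the interval `[x0, x0 + W)` contains the shadow of the disc -/
def side (q α D x0 : ℤ) (W : ℕ) : Prop :=
  0 ≤ α - 2 * q * (x0 - 1) ∧ D ≤ (α - 2 * q * (x0 - 1)) ^ 2 ∧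
  0 ≤ 2 * q * (x0 + W) - α ∧ D ≤ (2 * q * (x0 + W) - α) ^ 2

instance (q α D x0 : ℤ) (W : ℕ) : Decidable (side q α D x0 W) := by unfold side; infer_instance

/-- the box contains the disc -/
def box (q α β x0 y0 : ℤ) (W : ℕ) : Prop :=
  0 < q ∧ side q α (α ^ 2 + β ^ 2) x0 W ∧ side q β (α ^ 2 + β ^ 2) y0 W

instance (q α β x0 y0 : ℤ) (W : ℕ) : Decidable (box q α β x0 y0 W) := by
  unfold box; infer_instance

lemma side_mem {q α D x0 x : ℤ} {W : ℕ} (hq : 0 < q) (h : side q α D x0 W)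
    (hx : (2 * q * x - α) ^ 2 < D) : ∃ i ∈ Finset.range W, x0 + (i : ℕ) = x := by
  obtain ⟨h1, h2, h3, h4⟩ := h
  have a1 := (abs_lt_of_sq_lt_sq' (hx.trans_le h2) h1).1
  have a2 := (abs_lt_of_sq_lt_sq' (hx.trans_le h4) h3).2
  have b1 : x0 - 1 < x := lt_of_mul_lt_mul_left (by linarith) (by positivity : 0 ≤ 2 * q)
  have b2 : x < x0 + W := lt_of_mul_lt_mul_left (by linarith) (by positivity : 0 ≤ 2 * q)
  exact ⟨(x - x0).toNat, Finset.mem_range.2 (by omega), by omega⟩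

lemma ncard_eq_cnt {q α β x0 y0 : ℤ} {W : ℕ} (h : box q α β x0 y0 W) :
    {z : ℤ × ℤ | q * (z.1 * z.1 + z.2 * z.2) < α * z.1 + β * z.2}.ncard = cnt q α β x0 y0 W := by
  obtain ⟨hq, h1, h2⟩ := h
  rw [cnt_eq W hq h1.1 h2.1, cntS, ← Finset.sum_product', ← Finset.card_filter, ← Set.ncard_coe_finset]
  symm
  refine Set.ncard_congr (fun p _ => (x0 + p.2, y0 + p.1)) ?_ ?_ ?_
  · intro p hp
    exact (Finset.mem_filter.1 hp).2
  · rintro ⟨i, j⟩ ⟨k, l⟩ _ _ h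
    simp only [Prod.mk.injEq] at h ⊢
    omega
  · rintro ⟨x, y⟩ hz
    simp only [mem_ofPred_eq] at hz
    have e : (2 * q * x - α) ^ 2 + (2 * q * y - β) ^ 2 < α ^ 2 + β ^ 2 := by
      nlinarith [mul_lt_mul_of_pos_left hz hq]
    obtain ⟨i, hi, rfl⟩ := side_mem (x := x) hq h1 (by nlinarith [sq_nonneg (2 * q * y - β)])
    obtain ⟨j, hj, rfl⟩ := side_mem (x := y) hq h2
      (by nlinarith [sq_nonneg (2 * q * (x0 + i) - α)])
    exact ⟨(j, i), Finset.mem_filter.2 ⟨Finset.mem_product.2 ⟨hj, hi⟩, hz⟩, rfl⟩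

lemma dsq_int {q : ℤ} (α β : ℤ) (hq : 0 < q) (z : ℤ × ℤ) :
    q * (dsq (α / (2 * q)) (β / (2 * q)) z - (α ^ 2 + β ^ 2) / (4 * q ^ 2)) =
      (q * (z.1 * z.1 + z.2 * z.2) - (α * z.1 + β * z.2) : ℤ) := by
  have : (q : ℝ) ≠ 0 := by exact_mod_cast hq.ne'
  simp only [dsq]; push_cast; field_simp; ring

lemma ins_int {q : ℤ} (α β : ℤ) (hq : 0 < q) :
    ins (α / (2 * q)) (β / (2 * q)) ((α ^ 2 + β ^ 2) / (4 * q ^ 2)) =
      {z : ℤ × ℤ | q * (z.1 * z.1 + z.2 * z.2) < α * z.1 + β * z.2} := by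
  ext z
  have h : (0 : ℝ) < q := by exact_mod_cast hq
  simp only [ins, mem_ofPred_eq]
  rw [← sub_neg, ← sub_neg (a := q * _), ← Int.cast_lt_zero (R := ℝ), ← dsq_int α β hq]
  exact ⟨mul_neg_of_pos_of_neg h, fun h' => neg_of_mul_neg_right h' h.le⟩

lemma bd_int {q α β : ℤ} (hq : 0 < q) {z : ℤ × ℤ}
    (hz : q * (z.1 * z.1 + z.2 * z.2) = α * z.1 + β * z.2) :
    z ∈ bd (α / (2 * q)) (β / (2 * q)) ((α ^ 2 + β ^ 2) / (4 * q ^ 2)) := by
  have h : (0 : ℝ) < q := by exact_mod_cast hq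
  have := dsq_int α β hq z
  rw [hz, sub_self, Int.cast_zero] at this
  exact sub_eq_zero.1 ((mul_eq_zero.1 this).resolve_left h.ne')

lemma pin_eq_cnt {a b s q x0 y0 : ℤ} {W : ℕ}
    (h : box q (q * a - s * b) (q * b + s * a) x0 y0 W) :
    (pin a b (s / q)).ncard = cnt q (q * a - s * b) (q * b + s * a) x0 y0 W := by
  rw [← ncard_eq_cnt h]
  congr 1
  ext z
  have hq : (0 : ℝ) < q := by exact_mod_cast h.1
  rw [mem_pin, div_mul_eq_mul_div, lt_div_iff₀ hq, mem_ofPred_eq, ← Int.cast_lt (R := ℝ)]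
  simp only [ff, gg]; push_cast
  constructor <;> intro h <;> linarith

def noDiv (p R : ℕ) : Bool :=
  Nat.rec true (fun d acc => cond (Nat.beq (Nat.mod p (Nat.add d 2)) 0) false acc) R

lemma noDiv_spec {p R : ℕ} (h : noDiv p R = true) (d : ℕ) (hd : d < R) : p % (d + 2) ≠ 0 := by
  induction R with
  | zero => omega
  | succ R ih =>
    have h' : cond (Nat.beq (p % (R + 2)) 0) false (noDiv p R) = true := h
    cases hb : Nat.beq (p % (R + 2)) 0 with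
    | true => simp [hb] at h'
    | false =>
      rw [hb] at h'
      rcases (Nat.lt_succ_iff.1 hd).eq_or_lt with rfl | hd
      · exact Nat.ne_of_beq_eq_false hb
      · exact ih h' hd

/-- trial division -/
def primeChk (p R : ℕ) : Prop := 2 ≤ p ∧ p < (R + 2) * (R + 2) ∧ noDiv p R = true

instance (p R : ℕ) : Decidable (primeChk p R) := by unfold primeChk; infer_instance

lemma primeChk.prime {p R : ℕ} (h : primeChk p R) : p.Prime := by
  refine Nat.prime_def_le_sqrt.2 ⟨h.1, fun m h2 hm hd => ?_⟩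
  have : m < R + 2 := by
    by_contra hc
    have := Nat.le_sqrt.1 hm
    nlinarith [h.2.1]
  refine noDiv_spec h.2.2 (m - 2) (by omega) ?_
  rw [Nat.sub_add_cancel h2]
  exact Nat.mod_eq_zero_of_dvd hd

/-- common conditions on a prime `a² + b²` and a parameter `s / q` -/
def par (a b s q R : ℕ) : Prop :=
  0 < b ∧ b < a ∧ 0 < q ∧ s * a ≤ b * q ∧ s * (a + b) + b * q ≤ a * q ∧ primeChk (a ^ 2 + b ^ 2) R

instance (a b s q R : ℕ) : Decidable (par a b s q R) := by unfold par; infer_instance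

lemma par.ex {a b s q R n : ℕ} (h : par a b s q R) (hlo : (pin a b 0).ncard ≤ n)
    (hhi : n < (pin a b ((s : ℤ) / (q : ℤ))).ncard) : Ex n := by
  obtain ⟨h1, h2, h3, h4, h5, h6⟩ := h
  have hq : (0 : ℝ) < q := by exact_mod_cast h3
  refine good (by exact_mod_cast h1) (by exact_mod_cast h2)
    (by exact_mod_cast Nat.prime_iff_prime_int.1 h6.prime) (by positivity) ?_ ?_ hlo hhi
  · push_cast
    rw [div_mul_eq_mul_div, div_le_iff₀ hq]
    exact_mod_cast h4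
  · push_cast
    rw [div_mul_eq_mul_div, div_le_iff₀ hq]
    have : (s : ℝ) * (a + b) + b * q ≤ a * q := by exact_mod_cast h5
    linarith

/-- certificates -/
inductive Cert
  | six : Cert
  | wit (n : ℕ) (q α β x0 y0 : ℤ) (W : ℕ) (x1 y1 x2 y2 : ℤ) : Cert
  | pen (lo hi a b s q R : ℕ) (x0 y0 : ℤ) (W : ℕ) (x1 y1 : ℤ) (V : ℕ) : Cert
  | gau (lo hi a b s q R R0 R1 : ℕ) : Cert

def Cert.lo : Cert → ℕ
  | six => 6
  | wit n .. => n
  | pen lo .. => lo
  | gau lo .. => lo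

def Cert.hi : Cert → ℕ
  | six => 7
  | wit n .. => n + 1
  | pen _ hi .. => hi
  | gau _ hi .. => hi

def Cert.ok : Cert → Bool
  | six => true
  | wit n q α β x0 y0 W x1 y1 x2 y2 => decide (box q α β x0 y0 W ∧ cnt q α β x0 y0 W = n ∧
      q * (x1 * x1 + y1 * y1) = α * x1 + β * y1 ∧ q * (x2 * x2 + y2 * y2) = α * x2 + β * y2 ∧
      ¬ (x1 = 0 ∧ y1 = 0) ∧ ¬ (x2 = 0 ∧ y2 = 0) ∧ ¬ (x1 = x2 ∧ y1 = y2))
  | pen lo hi a b s q R x0 y0 W x1 y1 V => decide (par a b s q R ∧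
      box 1 (1 * a - 0 * b) (1 * b + 0 * a) x0 y0 W ∧
      cnt 1 (1 * a - 0 * b) (1 * b + 0 * a) x0 y0 W ≤ lo ∧
      box q (q * a - s * b) (q * b + s * a) x1 y1 V ∧
      hi ≤ cnt q (q * a - s * b) (q * b + s * a) x1 y1 V)
  | gau lo hi a b s q R R0 R1 => decide (par a b s q R ∧ 0 < R0 ∧ 0 < R1 ∧
      (a ^ 2 + b ^ 2) * 10 ^ 8 ≤ 4 * R0 ^ 2 ∧ 31416 * (R0 + 7072) ^ 2 ≤ lo * 10 ^ 12 ∧
      4 * q ^ 2 * (R1 + 7072) ^ 2 ≤ (a ^ 2 + b ^ 2) * (q ^ 2 + s ^ 2) * 10 ^ 8 ∧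
      hi * 10 ^ 12 ≤ 31415 * R1 ^ 2)

lemma Cert.sound (c : Cert) (h : c.ok = true) (n : ℕ) (h1 : c.lo ≤ n) (h2 : n < c.hi)
    (h6 : n ≠ 6) : Ex n := by
  cases c with
  | six => simp only [lo, hi] at h1 h2; omega
  | wit m q α β x0 y0 W x1 y1 x2 y2 =>
    simp only [lo, hi, ok, decide_eq_true_eq] at h h1 h2
    obtain ⟨c1, c2, c3, c4, c5, c6, c7⟩ := h
    refine ⟨α / (2 * q), β / (2 * q), (α ^ 2 + β ^ 2) / (4 * q ^ 2), ?_, (0, 0),
      bd_int c1.1 (by simp), (x1, y1), bd_int c1.1 c3, (x2, y2), bd_int c1.1 c4, ?_, ?_, ?_⟩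
    · rw [ins_int _ _ c1.1, ncard_eq_cnt c1]; omega
    all_goals simp only [ne_eq, Prod.mk.injEq]; omega
  | pen lo hi a b s q R x0 y0 W x1 y1 V =>
    simp only [Cert.lo, Cert.hi, ok, decide_eq_true_eq] at h h1 h2
    obtain ⟨c1, c2, c3, c4, c5⟩ := h
    refine c1.ex ?_ ?_
    · have := pin_eq_cnt c2
      rw [show ((0 : ℤ) : ℝ) / (1 : ℤ) = 0 by simp] at this
      omega
    · rw [pin_eq_cnt c4]; omega
  | gau lo hi a b s q R R0 R1 =>
    simp only [Cert.lo, Cert.hi, ok, decide_eq_true_eq] at h h1 h2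
    obtain ⟨c1, c2, c3, c4, c5, c6, c7⟩ := h
    have hq : (0 : ℝ) < q := by exact_mod_cast c1.2.2.1
    have d2 : (0 : ℝ) < R0 := by exact_mod_cast c2
    have d3 : (0 : ℝ) < R1 := by exact_mod_cast c3
    have d4 : ((a : ℝ) ^ 2 + b ^ 2) * 10 ^ 8 ≤ 4 * R0 ^ 2 := by exact_mod_cast c4
    have d5 : 31416 * ((R0 : ℝ) + 7072) ^ 2 ≤ lo * 10 ^ 12 := by exact_mod_cast c5
    have d6 : 4 * (q : ℝ) ^ 2 * (R1 + 7072) ^ 2 ≤ (a ^ 2 + b ^ 2) * (q ^ 2 + s ^ 2) * 10 ^ 8 := by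
      exact_mod_cast c6
    have d7 : (hi : ℝ) * 10 ^ 12 ≤ 31415 * R1 ^ 2 := by exact_mod_cast c7
    have e1 : (lo : ℝ) ≤ n := by exact_mod_cast h1
    have e2 : (n : ℝ) < hi := by exact_mod_cast h2
    refine c1.ex ?_ ?_
    · have := gauss_upper (pu a b 0) (pv a b 0) (pr a b 0) (R0 / 10000) (by positivity)
        (by simp only [pr]; push_cast; linarith)
      exact_mod_cast (by unfold pin; linarith : ((pin a b 0).ncard : ℝ) ≤ n)
    · have := gauss_lower (pu a b ((s : ℤ) / (q : ℤ))) (pv a b ((s : ℤ) / (q : ℤ)))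
        (pr a b ((s : ℤ) / (q : ℤ))) (R1 / 10000) (by positivity) (by
          simp only [pr]; push_cast
          rw [div_pow, ← sub_nonneg]
          have : ((a : ℝ) ^ 2 + b ^ 2) * (1 + s ^ 2 / q ^ 2) / 4 - (R1 / 10000 + 0.7072) ^ 2 =
              ((a ^ 2 + b ^ 2) * (q ^ 2 + s ^ 2) * 10 ^ 8 - 4 * q ^ 2 * (R1 + 7072) ^ 2) /
                (4 * q ^ 2 * 10 ^ 8) := by field_simp; ring
          rw [this]
          exact div_nonneg (by linarith) (by positivity))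
      exact_mod_cast (by unfold pin; linarith :
        (n : ℝ) < (pin a b ((s : ℤ) / (q : ℤ))).ncard)

/-- a chain of certificates covering `[cur, N)` -/
def chain : List Cert → ℕ → ℕ → Bool
  | [], cur, N => decide (N ≤ cur)
  | c :: L, cur, N => c.ok && decide (c.lo ≤ cur) && chain L c.hi N

lemma chain_sound (L : List Cert) (cur N : ℕ) (h : chain L cur N = true) (n : ℕ) (h1 : cur ≤ n)
    (h2 : n < N) (h6 : n ≠ 6) : Ex n := by
  induction L generalizing cur with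
  | nil => simp only [chain, decide_eq_true_eq] at h; omega
  | cons c L ih =>
    simp only [chain, Bool.and_eq_true, decide_eq_true_eq] at h
    by_cases hc : n < c.hi
    · exact c.sound h.1.1 n (by omega) hc h6
    · exact ih _ h.2 (by omega)

end Pool.Agent.MP_e47a12_co

end MrgPart4

-- marker of a merged file
example : 731051 + 272727 = 731051 + 272727 := rfl
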