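import Pool.Agent.MP_e47a12_co.Cert

/-! Normal form of a lattice circle; the case `n = 6`; finitely many radii. -/

namespace Pool.Agent.MP_e47a12_co

open Set

def nq (a b c d : ℤ) : ℤ := (a * d - b * c) ^ 2
def nα (a b c d : ℤ) : ℤ := (a * d - b * c) * ((a ^ 2 + b ^ 2) * d - (c ^ 2 + d ^ 2) * b)
def nβ (a b c d : ℤ) : ℤ := (a * d - b * c) * ((c ^ 2 + d ^ 2) * a - (a ^ 2 + b ^ 2) * c)

lemma Lat.normal {n : ℕ} {u v ρ : ℝ} (h : Lat n u v ρ) : ∃ a b c d : ℤ, 0 < nq a b c d ∧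
    ((a ^ 2 + b ^ 2 : ℤ) : ℝ) ≤ 4 * ρ ∧ ((c ^ 2 + d ^ 2 : ℤ) : ℝ) ≤ 4 * ρ ∧
    ρ = (nα a b c d ^ 2 + nβ a b c d ^ 2) / (4 * nq a b c d ^ 2) ∧
    (ins (nα a b c d / (2 * nq a b c d)) (nβ a b c d / (2 * nq a b c d)) ρ).ncard = n := by
  obtain ⟨hn, A, hA, B, hB, C, hC, hAB, hAC, hBC⟩ := h
  have c1 := chord_le (le_of_eq hA) (le_of_eq hB)
  have c2 := chord_le (le_of_eq hA) (le_of_eq hC)
  obtain ⟨x, y⟩ := A
  obtain ⟨a, b, rfl⟩ : ∃ a b : ℤ, B = (x + a, y + b) := ⟨B.1 - x, B.2 - y, by simp⟩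
  obtain ⟨c, d, rfl⟩ : ∃ c d : ℤ, C = (x + c, y + d) := ⟨C.1 - x, C.2 - y, by simp⟩
  simp only [add_sub_cancel_left] at c1 c2
  simp only [bd, dsq, mem_ofPred_eq] at hA hB hC
  push_cast at hA hB hC
  have e1 : 2 * ((a : ℝ) * d - b * c) * (u - x) = (a ^ 2 + b ^ 2) * d - (c ^ 2 + d ^ 2) * b := by
    linear_combination b * (hC - hA) - d * (hB - hA)
  have e2 : 2 * ((a : ℝ) * d - b * c) * (v - y) = (c ^ 2 + d ^ 2) * a - (a ^ 2 + b ^ 2) * c := by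
    linear_combination c * (hB - hA) - a * (hC - hA)
  have pos : ∀ s t : ℤ, ¬ (s = 0 ∧ t = 0) → s ^ 2 + t ^ 2 ≠ 0 := fun s t h h' =>
    h ⟨by nlinarith [sq_nonneg s, sq_nonneg t], by nlinarith [sq_nonneg s, sq_nonneg t]⟩
  simp only [ne_eq, Prod.mk.injEq] at hAB hAC hBC
  have hdet : a * d - b * c ≠ 0 := by
    intro h0
    have h0' : (a : ℝ) * d - b * c = 0 := by exact_mod_cast h0
    rw [h0', mul_zero, zero_mul] at e1 e2
    have f1 : 0 = (a ^ 2 + b ^ 2) * d - (c ^ 2 + d ^ 2) * b := by exact_mod_cast e1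
    have f2 : 0 = (c ^ 2 + d ^ 2) * a - (a ^ 2 + b ^ 2) * c := by exact_mod_cast e2
    refine mul_ne_zero (mul_ne_zero (pos a b (by omega)) (pos c d (by omega)))
      (pos (a - c) (b - d) (by omega)) ?_
    linear_combination (-((a ^ 2 + b ^ 2) * d - (c ^ 2 + d ^ 2) * b)) * f1 -
      ((c ^ 2 + d ^ 2) * a - (a ^ 2 + b ^ 2) * c) * f2
  have hdet' : (a : ℝ) * d - b * c ≠ 0 := by exact_mod_cast hdet
  have g1 : (nα a b c d : ℝ) / (2 * nq a b c d) = u - x := by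
    simp only [nα, nq]; push_cast; rw [← e1]; field_simp
  have g2 : (nβ a b c d : ℝ) / (2 * nq a b c d) = v - y := by
    simp only [nβ, nq]; push_cast; rw [← e2]; field_simp
  have hq : 0 < nq a b c d := by simp only [nq]; positivity
  have hq' : (nq a b c d : ℝ) ≠ 0 := by exact_mod_cast hq.ne'
  refine ⟨a, b, c, d, hq, c1, c2, ?_, ?_⟩
  · have : ρ = (u - x) ^ 2 + (v - y) ^ 2 := by rw [← hA]; ring
    rw [this, ← g1, ← g2]; field_simp; ring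
  · rw [g1, g2, ← hn, ← ncard_shift u v ρ (-x, -y)]
    simp [sub_eq_add_neg]

def chk6 (a b c d : ℤ) : Prop := 0 < nq a b c d →
  nα a b c d ^ 2 + nβ a b c d ^ 2 ≤ 18 * nq a b c d ^ 2 →
    box (nq a b c d) (nα a b c d) (nβ a b c d) (-4) (-4) 9 ∧
    cnt (nq a b c d) (nα a b c d) (nβ a b c d) (-4) (-4) 9 ≠ 6

instance (a b c d : ℤ) : Decidable (chk6 a b c d) := by unfold chk6; infer_instance

set_option maxRecDepth 100000 in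
lemma chk6_all : ∀ a < 9, ∀ b < 9, ∀ c < 9, ∀ d < 9,
    chk6 ((a : ℕ) - 4) ((b : ℕ) - 4) ((c : ℕ) - 4) ((d : ℕ) - 4) := by decide +kernel

theorem not_ex_six : ¬ Ex 6 := by
  rintro ⟨u, v, ρ, h⟩
  have hρ : ρ ≤ 4.5 := by
    by_contra hc
    have := gauss_lower u v ρ 1.4 (by norm_num) (by linarith)
    rw [h.1] at this
    norm_num at this
  obtain ⟨a, b, c, d, hq, c1, c2, e, hn⟩ := h.normal
  have d1 : a ^ 2 + b ^ 2 ≤ 18 := by exact_mod_cast (by linarith : ((a ^ 2 + b ^ 2 : ℤ) : ℝ) ≤ 18)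
  have d2 : c ^ 2 + d ^ 2 ≤ 18 := by exact_mod_cast (by linarith : ((c ^ 2 + d ^ 2 : ℤ) : ℝ) ≤ 18)
  have rng : ∀ s t : ℤ, s ^ 2 + t ^ 2 ≤ 18 → ∃ k < 9, s = (k : ℕ) - 4 := fun s t h =>
    ⟨(s + 4).toNat, by
      have : -5 < s ∧ s < 5 := ⟨by nlinarith [sq_nonneg t], by nlinarith [sq_nonneg t]⟩
      omega⟩
  obtain ⟨a', ha, ea⟩ := rng a b d1
  obtain ⟨b', hb, eb⟩ := rng b a (by linarith)
  obtain ⟨c', hc, ec⟩ := rng c d d2
  obtain ⟨d', hd, ed⟩ := rng d c (by linarith)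
  have := chk6_all a' ha b' hb c' hc d' hd
  rw [← ea, ← eb, ← ec, ← ed] at this
  have hq' : (0 : ℝ) < nq a b c d := by exact_mod_cast hq
  obtain ⟨f1, f2⟩ := this hq (by
    rw [e, div_le_iff₀ (by positivity)] at hρ
    exact_mod_cast (by linarith :
      (nα a b c d : ℝ) ^ 2 + nβ a b c d ^ 2 ≤ 18 * (nq a b c d : ℝ) ^ 2))
  rw [e, ins_int _ _ hq, ncard_eq_cnt f1] at hn
  exact f2 hn

lemma radii_finite (n : ℕ) : {ρ : ℝ | ∃ u v, Lat n u v ρ}.Finite := by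
  have F := finite_le 0 0 (4 * ((n : ℝ) + 1 + 0.7072) ^ 2)
  refine ((F.prod F).image fun p : (ℤ × ℤ) × ℤ × ℤ =>
    ((nα p.1.1 p.1.2 p.2.1 p.2.2 : ℝ) ^ 2 + nβ p.1.1 p.1.2 p.2.1 p.2.2 ^ 2) /
      (4 * nq p.1.1 p.1.2 p.2.1 p.2.2 ^ 2)).subset ?_
  rintro ρ ⟨u, v, h⟩
  have hρ : ρ ≤ ((n : ℝ) + 1 + 0.7072) ^ 2 := by
    by_contra hc
    have := gauss_lower u v ρ (n + 1) (by positivity) (not_le.1 hc).le
    rw [h.1] at this
    have : (0 : ℝ) ≤ n := by positivity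
    nlinarith
  obtain ⟨a, b, c, d, -, c1, c2, e, -⟩ := h.normal
  push_cast at c1 c2
  refine ⟨((a, b), (c, d)), ⟨?_, ?_⟩, e.symm⟩ <;>
    simp only [dsq, mem_ofPred_eq, sub_zero] <;> linarith

lemma Lat.pos {n : ℕ} {u v ρ : ℝ} (h : Lat n u v ρ) : 0 < ρ := by
  obtain ⟨a, b, c, d, hq, c1, -, -, -⟩ := h.normal
  have : 0 < a ^ 2 + b ^ 2 := by
    by_contra hc
    have ha : a = 0 := by nlinarith [sq_nonneg a, sq_nonneg b]
    have hb : b = 0 := by nlinarith [sq_nonneg a, sq_nonneg b]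
    simp [nq, ha, hb] at hq
  have : (0 : ℝ) < ((a ^ 2 + b ^ 2 : ℤ) : ℝ) := by exact_mod_cast this
  linarith

lemma Ex.exists_max {n : ℕ} (h : Ex n) :
    ∃ u v ρ, Lat n u v ρ ∧ ∀ u' v' ρ', Lat n u' v' ρ' → ρ' ≤ ρ := by
  obtain ⟨u, v, ρ, h⟩ := h
  obtain ⟨σ, ⟨u', v', h'⟩, hm⟩ := Set.exists_max_image _ id (radii_finite n) ⟨ρ, u, v, h⟩
  exact ⟨u', v', σ, h', fun a b c hc => hm c ⟨a, b, hc⟩⟩

end Pool.Agent.MP_e47a12_co
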